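import Pool.Agent.LibGMM.Api

/-! TASK G10. -/

namespace Pool.Agent.LibGMM

variable {K : Type} [Field K] [Algebra ℂ K]

/-- The local rings of a normal variety are integrally closed. -/
theorem NormalModel.loc_normal (X : NormalModel K) (p : X.Pt) (y : K) (q : Polynomial K)
    (hq : q.Monic) (hc : ∀ n, q.coeff n ∈ X.loc p) (hy : q.eval y = 0) : y ∈ X.loc p := by
  classical
  set A : Subalgebra ℂ K := chart X.g p.i with hA
  choose a b hb hab using hc
  -- the common denominator
  set s : A := ∏ n ∈ q.support, b n with hs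
  haveI := p.prime
  have hsP : s ∉ p.P := by
    intro h
    obtain ⟨n, _, hn⟩ := (Ideal.IsPrime.prod_mem_iff (p := p.P)).mp h
    exact hb n hn
  have hb0 : ∀ n, (b n : K) ≠ 0 := by
    intro n h
    apply hb n
    have : b n = 0 := Subtype.ext h
    rw [this]
    exact p.P.zero_mem
  have hs0 : (s : K) ≠ 0 := by
    intro h
    apply hsP
    have : s = 0 := Subtype.ext h
    rw [this]
    exact p.P.zero_mem
  have hcs : ∀ n, q.coeff n * (s : K) ∈ A := by
    intro n
    by_cases hn : n ∈ q.support
    · rw [hs, ← Finset.mul_prod_erase _ _ hn, hab n]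
      have h1 : ((b n * ∏ x ∈ q.support.erase n, b x : A) : K) =
          (b n : K) * ((∏ x ∈ q.support.erase n, b x : A) : K) := rfl
      have h2 : (a n : K) / (b n : K) * ((b n : K) * ((∏ x ∈ q.support.erase n, b x : A) : K)) =
          (a n : K) * ((∏ x ∈ q.support.erase n, b x : A) : K) := by
        field_simp [hb0 n]
      rw [h1, h2]
      exact A.mul_mem (a n).2 (∏ x ∈ q.support.erase n, b x : A).2
    · rw [Polynomial.notMem_support_iff.mp hn, zero_mul]
      exact A.zero_mem
  -- `s * y` is integral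
  have hint : IsIntegral A ((s : K) * y) := by
    have hmon : (q.scaleRoots (s : K)).Monic := Polynomial.monic_scaleRoots_iff (s : K) |>.mpr hq
    have hlift : q.scaleRoots (s : K) ∈ Polynomial.lifts (algebraMap A K) := by
      rw [Polynomial.lifts_iff_coeff_lifts]
      intro n
      rw [Polynomial.coeff_scaleRoots]
      have h1 : q.coeff n * (s : K) ^ (q.natDegree - n) ∈ A := by
        rcases lt_trichotomy n q.natDegree with h | h | h
        · obtain ⟨m, hm⟩ : ∃ m, q.natDegree - n = m + 1 := ⟨q.natDegree - n - 1, by omega⟩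
          rw [hm, pow_succ', ← mul_assoc]
          exact A.mul_mem (hcs n) (A.pow_mem s.2 m)
        · rw [h, Nat.sub_self, pow_zero, mul_one]
          have := hq.coeff_natDegree
          rw [this]
          exact A.one_mem
        · rw [Polynomial.coeff_eq_zero_of_natDegree_lt h, zero_mul]
          exact A.zero_mem
      exact ⟨⟨_, h1⟩, rfl⟩
    obtain ⟨r, hr1, _, hr2⟩ := Polynomial.lifts_and_natDegree_eq_and_monic hlift hmon
    refine ⟨r, hr2, ?_⟩
    rw [← Polynomial.eval_map, hr1]
    have h1 := Polynomial.scaleRoots_eval₂_mul (p := q) (RingHom.id K) y (s : K)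
    simp only [RingHom.id_apply] at h1
    rw [← Polynomial.eval₂_id, h1, Polynomial.eval₂_id, hy, mul_zero]
  have hmem : (s : K) * y ∈ A := X.normal p.i _ hint
  refine ⟨⟨(s : K) * y, hmem⟩, s, hsP, ?_⟩
  rw [mul_div_cancel_left₀ _ hs0]

/-- An element of all valuation rings above a subring is integral over it. -/
private theorem g10_integral {K : Type} [Field K] (R : Subring K) (x : K)
    (h : ∀ V : ValuationSubring K, (R : Set K) ⊆ V.toSubring → x ∈ V) :
    ∃ q : Polynomial K, q.Monic ∧ (∀ n, q.coeff n ∈ R) ∧ q.eval x = 0 := by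
  have h1 : x ∈ (⨅ V : {V : ValuationSubring K // (R : Set K) ⊆ V.toSubring}, V.1.toSubring) := by
    rw [Subring.mem_iInf]
    exact fun V => h V.1 V.2
  rw [iInf_valuationSubring_superset] at h1
  have h2 : IsIntegral (Subring.closure (R : Set K)) x := h1
  obtain ⟨q, hq, hx⟩ := h2
  refine ⟨q.map (algebraMap _ K), hq.map _, ?_, ?_⟩
  · intro n
    rw [Polynomial.coeff_map]
    have h3 := (q.coeff n).2
    exact (Subring.closure_eq R).le h3
  · rw [Polynomial.eval_map]
    exact hx

/-- Let `V'` be a valuation ring of `K`, `L` a subfield over which `K` is algebraic, `V = V' ∩ L`.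
Then `V'` is a localization of the integral closure of `V`: every `y ∈ V'` is `(b * y) / b` where `b`
and `b * y` are integral over `V` and `b` is a unit of `V'`. (Take a relation `∑ a_n y ^ n = 0` with
`a_n ∈ V`, not all in the maximal ideal, let `k` be the largest index such that `a_k` is a unit and
`b = a_k + a_{k+1} y + ... `; `b` and `b * y` are in all valuation rings of `K` containing `V`.) -/
theorem exists_integral_denominator {K : Type} [Field K] (L : Subfield K)
    (halg : ∀ y : K, ∃ q : Polynomial K, q ≠ 0 ∧ (∀ n, q.coeff n ∈ L) ∧ q.eval y = 0)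
    (V' : ValuationSubring K) (y : K) (hy : y ∈ V') :
    ∃ b : K, b ∈ V' ∧ b⁻¹ ∈ V' ∧ b ≠ 0 ∧
      (∃ q : Polynomial K, q.Monic ∧ (∀ n, q.coeff n ∈ L ∧ q.coeff n ∈ V') ∧ q.eval b = 0) ∧
      (∃ q : Polynomial K, q.Monic ∧ (∀ n, q.coeff n ∈ L ∧ q.coeff n ∈ V') ∧
        q.eval (b * y) = 0) := by
  classical
  obtain ⟨q₀, hq₀, hqL, hqy⟩ := halg y
  obtain ⟨n₀, hn₀, hmax⟩ := Finset.exists_max_image q₀.support
    (fun n => V'.valuation (q₀.coeff n)) (Polynomial.support_nonempty.mpr hq₀)
  have hc₀ : q₀.coeff n₀ ≠ 0 := Polynomial.mem_support_iff.mp hn₀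
  -- the scaled relation
  set a : ℕ → K := fun n => q₀.coeff n / q₀.coeff n₀ with ha
  have haL : ∀ n, a n ∈ L := fun n => L.div_mem (hqL n) (hqL n₀)
  have hv0 : V'.valuation (q₀.coeff n₀) ≠ 0 := (Valuation.ne_zero_iff _).mpr hc₀
  have haV1 : ∀ n, V'.valuation (a n) ≤ 1 := by
    intro n
    rw [ha]
    simp only [map_div₀]
    by_cases hn : n ∈ q₀.support
    · exact (div_le_one₀ (zero_lt_iff.mpr hv0)).mpr (hmax n hn)
    · rw [Polynomial.notMem_support_iff.mp hn, map_zero, zero_div]
      exact zero_le_one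
  have haV : ∀ n, a n ∈ V' := fun n => (V'.valuation_le_one_iff _).mp (haV1 n)
  have han₀ : a n₀ = 1 := div_self hc₀
  -- the largest unit coefficient
  set U : Finset ℕ := q₀.support.filter fun n => V'.valuation (a n) = 1 with hU
  have hUne : U.Nonempty := ⟨n₀, by simp [hU, Finset.mem_filter, hn₀, han₀]⟩
  set k : ℕ := U.max' hUne with hk
  have hkU : k ∈ U := U.max'_mem hUne
  have hak : V'.valuation (a k) = 1 := (Finset.mem_filter.mp hkU).2
  have hgt : ∀ n, k < n → V'.valuation (a n) < 1 := by
    intro n hn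
    refine lt_of_le_of_ne (haV1 n) fun h1 => ?_
    have h2 : n ∈ U := by
      refine Finset.mem_filter.mpr ⟨?_, h1⟩
      by_contra h3
      rw [ha] at h1
      simp only [Polynomial.notMem_support_iff.mp h3, zero_div, map_zero] at h1
      exact zero_ne_one h1
    exact absurd (U.le_max' n h2) (not_le.mpr hn)
  set N : ℕ := q₀.natDegree with hN
  have hkN : k ≤ N := Polynomial.le_natDegree_of_mem_supp k (Finset.mem_filter.mp hkU).1
  have hrel : ∑ n ∈ Finset.range (N + 1), a n * y ^ n = 0 := by
    have h1 : ∑ n ∈ Finset.range (N + 1), a n * y ^ n =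
        (∑ n ∈ Finset.range (N + 1), q₀.coeff n * y ^ n) / q₀.coeff n₀ := by
      rw [Finset.sum_div]
      exact Finset.sum_congr rfl fun n _ => by rw [ha]; ring
    rw [h1, ← Polynomial.eval_eq_sum_range, hqy, zero_div]
  set b : K := ∑ i ∈ Finset.range (N + 1 - k), a (k + i) * y ^ i with hb
  have hbk : y ^ k * b = - ∑ n ∈ Finset.range k, a n * y ^ n := by
    have h1 := Finset.sum_range_add (fun n => a n * y ^ n) k (N + 1 - k)
    rw [show k + (N + 1 - k) = N + 1 by omega, hrel] at h1
    have h2 : ∑ i ∈ Finset.range (N + 1 - k), a (k + i) * y ^ (k + i) = y ^ k * b := by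
      rw [hb, Finset.mul_sum]
      exact Finset.sum_congr rfl fun i _ => by rw [pow_add]; ring
    rw [h2] at h1
    linear_combination -h1
  have hyV : V'.valuation y ≤ 1 := (V'.valuation_le_one_iff _).mpr hy
  have hbval : V'.valuation b = 1 := by
    have h1 : b = (∑ i ∈ Finset.range (N - k), a (k + (i + 1)) * y ^ (i + 1)) + a k := by
      rw [hb, show N + 1 - k = (N - k) + 1 by omega, Finset.sum_range_succ']
      simp
    have h2 : V'.valuation (∑ i ∈ Finset.range (N - k), a (k + (i + 1)) * y ^ (i + 1)) < 1 := by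
      refine Valuation.map_sum_lt _ one_ne_zero fun i _ => ?_
      rw [map_mul, map_pow]
      exact mul_lt_one_of_lt_of_le (hgt _ (by omega)) (pow_le_one₀ zero_le' hyV)
    rw [h1, Valuation.map_add_eq_of_lt_right _ (by rw [hak]; exact h2), hak]
  have hb0 : b ≠ 0 := by
    intro h
    rw [h, map_zero] at hbval
    exact zero_ne_one hbval
  -- `b` and `b * y` are in all valuation rings
  have hall : ∀ W : ValuationSubring K, (((L.toSubring ⊓ V'.toSubring : Subring K)) : Set K) ⊆
      W.toSubring → b ∈ W ∧ b * y ∈ W := by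
    intro W hW
    have haW : ∀ n, a n ∈ W := fun n => hW ⟨haL n, haV n⟩
    rcases W.mem_or_inv_mem y with h1 | h1
    · have h2 : b ∈ W := by
        rw [hb]
        exact sum_mem fun i _ => W.mul_mem _ _ (haW _) (pow_mem h1 i)
      exact ⟨h2, W.mul_mem _ _ h2 h1⟩
    · by_cases hy0 : y = 0
      · have h3 : y ∈ W := by rw [hy0]; exact W.zero_mem
        have h2 : b ∈ W := by
          rw [hb]
          exact sum_mem fun i _ => W.mul_mem _ _ (haW _) (pow_mem h3 i)
        exact ⟨h2, W.mul_mem _ _ h2 h3⟩
      · have h2 : b = - ∑ n ∈ Finset.range k, a n * y⁻¹ ^ (k - n) := by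
          have h3 : b = y⁻¹ ^ k * (y ^ k * b) := by
            rw [← mul_assoc, ← mul_pow, inv_mul_cancel₀ hy0, one_pow, one_mul]
          rw [h3, hbk, mul_neg, Finset.mul_sum]
          congr 1
          refine Finset.sum_congr rfl fun n hn => ?_
          have h4 : n < k := Finset.mem_range.mp hn
          have h5 : y⁻¹ ^ k = y⁻¹ ^ (k - n) * y⁻¹ ^ n := by
            rw [← pow_add]
            congr 1
            omega
          rw [h5]
          have h6 : y⁻¹ ^ n * y ^ n = 1 := by
            rw [← mul_pow, inv_mul_cancel₀ hy0, one_pow]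
          linear_combination (a n * y⁻¹ ^ (k - n)) * h6
        refine ⟨?_, ?_⟩
        · rw [h2]
          exact W.neg_mem _ (sum_mem fun n _ => W.mul_mem _ _ (haW _) (pow_mem h1 _))
        · have h3 : b * y = - ∑ n ∈ Finset.range k, a n * y⁻¹ ^ (k - n - 1) := by
            rw [h2, neg_mul, Finset.sum_mul]
            congr 1
            refine Finset.sum_congr rfl fun n hn => ?_
            have h4 : n < k := Finset.mem_range.mp hn
            have h5 : y⁻¹ ^ (k - n) = y⁻¹ ^ (k - n - 1) * y⁻¹ := by
              rw [← pow_succ]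
              congr 1
              omega
            rw [h5, mul_assoc, mul_assoc, inv_mul_cancel₀ hy0, mul_one]
          rw [h3]
          exact W.neg_mem _ (sum_mem fun n _ => W.mul_mem _ _ (haW _) (pow_mem h1 _))
  refine ⟨b, (V'.valuation_le_one_iff _).mp hbval.le, ?_, hb0, ?_, ?_⟩
  · refine (V'.valuation_le_one_iff _).mp ?_
    rw [map_inv₀, hbval, inv_one]
  · exact g10_integral _ b fun W hW => (hall W hW).1
  · exact g10_integral _ (b * y) fun W hW => (hall W hW).2

end Pool.Agent.LibGMM
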