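import Pool.Agent.LibGMM.Api

/-! TASK G5. Centres of valuations. -/

namespace Pool.Agent.LibGMM

variable {K : Type} [Field K] [Algebra ℂ K]

theorem NormalModel.exists_index (X : NormalModel K) (V : ValuationSubring K) :
    ∃ i, ∀ j, (X.g j : K) / X.g i ∈ V := by
  have := X.fin
  have := X.ne
  obtain ⟨i, hi⟩ := Finite.exists_max fun j : X.ι => V.valuation (X.g j : K)
  refine ⟨i, fun j => ?_⟩
  rw [← V.valuation_le_one_iff, map_div₀]
  have h0 : V.valuation (X.g i : K) ≠ 0 := (Valuation.ne_zero_iff _).2 (X.g i).ne_zero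
  exact (div_le_one₀ (zero_lt_iff.2 h0)).2 (hi j)

private theorem chart_le_val (X : NormalModel K) (V : ValuationSubring K)
    (hV : ∀ c : ℂ, algebraMap ℂ K c ∈ V) (i : X.ι) (hi : ∀ j, (X.g j : K) / X.g i ∈ V) :
    ∀ a ∈ chart X.g i, a ∈ V := by
  intro a ha
  unfold chart at ha
  induction ha using Algebra.adjoin_induction with
  | mem x hx => obtain ⟨j, rfl⟩ := hx; exact hi j
  | algebraMap r => exact hV r
  | add x y _ _ h1 h2 => exact V.add_mem _ _ h1 h2
  | mul x y _ _ h1 h2 => exact V.mul_mem _ _ h1 h2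

/-- The prime of a chart cut out by a valuation ring. -/
private def valIdeal (X : NormalModel K) (V : ValuationSubring K) (i : X.ι)
    (h : ∀ a ∈ chart X.g i, a ∈ V) : Ideal (chart X.g i) where
  carrier := {a | V.valuation (a : K) < 1}
  add_mem' := by
    intro a b ha hb
    simp only [Set.mem_setOf_eq] at *
    exact Valuation.map_add_lt _ ha hb
  zero_mem' := by simp
  smul_mem' := by
    intro c a ha
    simp only [Set.mem_setOf_eq, smul_eq_mul, MulMemClass.coe_mul, map_mul] at *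
    have hc : V.valuation (c : K) ≤ 1 := (V.valuation_le_one_iff _).2 (h c c.2)
    exact mul_lt_one_of_nonneg_of_lt_one_right hc zero_le ha

private theorem valIdeal_prime (X : NormalModel K) (V : ValuationSubring K) (i : X.ι)
    (h : ∀ a ∈ chart X.g i, a ∈ V) : (valIdeal X V i h).IsPrime := by
  constructor
  · rw [Ne, Ideal.eq_top_iff_one]
    change ¬ (V.valuation ((1 : chart X.g i) : K) < 1)
    simp
  · intro a b hab
    change V.valuation ((a * b : chart X.g i) : K) < 1 at hab
    change V.valuation (a : K) < 1 ∨ V.valuation (b : K) < 1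
    by_contra hcon
    push Not at hcon
    have h1 : V.valuation (a : K) = 1 :=
      le_antisymm ((V.valuation_le_one_iff _).2 (h a a.2)) hcon.1
    have h2 : V.valuation (b : K) = 1 :=
      le_antisymm ((V.valuation_le_one_iff _).2 (h b b.2)) hcon.2
    rw [MulMemClass.coe_mul, map_mul, h1, h2] at hab
    simp at hab

theorem NormalModel.exists_pt_le (X : NormalModel K) (V : ValuationSubring K)
    (hV : ∀ c : ℂ, algebraMap ℂ K c ∈ V) (i : X.ι) (hi : ∀ j, (X.g j : K) / X.g i ∈ V) :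
    ∃ p : X.Pt, p.i = i ∧ ∀ x ∈ X.loc p, x ∈ V := by
  have h := chart_le_val X V hV i hi
  refine ⟨⟨i, valIdeal X V i h, valIdeal_prime X V i h⟩, rfl, ?_⟩
  rintro x ⟨a, b, hb, rfl⟩
  have h1 : V.valuation (b : K) = 1 := by
    refine le_antisymm ((V.valuation_le_one_iff _).2 (h b b.2)) ?_
    by_contra hcon
    exact hb (not_le.1 hcon)
  rw [← V.valuation_le_one_iff, map_div₀, h1, div_one]
  exact (V.valuation_le_one_iff _).2 (h a a.2)

theorem NormalModel.exists_centre' (X : NormalModel K) (O : DVal K) (i : X.ι)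
    (hi : ∀ j, 0 ≤ O.ord ((X.g j : K) / X.g i)) : ∃ p : X.Pt, p.i = i ∧ X.IsCentre O p := by
  have hV : ∀ c : ℂ, algebraMap ℂ K c ∈ O.toVal := fun c => by
    rw [O.mem_toVal, O.ord_const]
  have h := chart_le_val X O.toVal hV i (fun j => (O.mem_toVal).2 (hi j))
  refine ⟨⟨i, valIdeal X O.toVal i h, valIdeal_prime X O.toVal i h⟩, rfl, ?_⟩
  intro a
  have ha : 0 ≤ O.ord (a : K) := (O.mem_toVal).1 (h a a.2)
  refine ⟨ha, ?_⟩
  change O.toVal.valuation (a : K) < 1 ↔ _
  constructor
  · intro hlt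
    by_contra hcon
    push Not at hcon
    obtain ⟨h0, h1⟩ := hcon
    have h0' : (a : K) ≠ 0 := by
      intro h2; exact h0 (Subtype.ext h2)
    have h2 : (a : K)⁻¹ ∈ O.toVal := by
      rw [O.mem_toVal, O.ord_inv]; omega
    have h3 := (O.toVal.valuation_le_one_iff _).2 h2
    rw [map_inv₀] at h3
    have h4 : O.toVal.valuation (a : K) ≠ 0 := (Valuation.ne_zero_iff _).2 h0'
    have h5 : 1 ≤ O.toVal.valuation (a : K) := (inv_le_one₀ (zero_lt_iff.2 h4)).1 h3
    exact absurd hlt (not_lt.2 h5)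
  · rintro (h0 | h1)
    · subst h0; simp
    · by_contra hcon
      have h5 : 1 ≤ O.toVal.valuation (a : K) := not_lt.1 hcon
      have h0' : (a : K) ≠ 0 := by
        intro h2; rw [h2, O.ord_zero] at h1; exact lt_irrefl _ h1
      have h4 : O.toVal.valuation (a : K) ≠ 0 := (Valuation.ne_zero_iff _).2 h0'
      have h3 := (inv_le_one₀ (zero_lt_iff.2 h4)).2 h5
      rw [← map_inv₀, O.toVal.valuation_le_one_iff, O.mem_toVal, O.ord_inv] at h3
      omega

theorem NormalModel.exists_centre (X : NormalModel K) (O : DVal K) : ∃ p : X.Pt, X.IsCentre O p := by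
  obtain ⟨i, hi⟩ := X.exists_index O.toVal
  obtain ⟨p, _, hp⟩ := X.exists_centre' O i (fun j => (O.mem_toVal).1 (hi j))
  exact ⟨p, hp⟩

/-- The local ring at the centre of `O` lies in the ring of `O`. -/
theorem NormalModel.loc_le_of_isCentre (X : NormalModel K) (O : DVal K) (p : X.Pt)
    (h : X.IsCentre O p) (x : K) (hx : x ∈ X.loc p) : 0 ≤ O.ord x := by
  obtain ⟨a, b, hb, rfl⟩ := hx
  have h1 := (h b)
  have h2 : ¬ (b = 0 ∨ 0 < O.ord b) := fun hc => hb (h1.2.2 hc)
  push Not at h2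
  obtain ⟨h3, h4⟩ := h2
  by_cases ha : (a : K) = 0
  · simp [ha]
  have hb' : (b : K) ≠ 0 := fun hc => h3 (Subtype.ext hc)
  rw [O.ord_div ha hb']
  have := (h a).1
  omega

private theorem one_notMem (X : NormalModel K) (p : X.Pt) : (1 : chart X.g p.i) ∉ p.P := by
  intro h
  exact p.prime.ne_top ((Ideal.eq_top_iff_one _).2 h)

private theorem coe_ne_zero' (X : NormalModel K) (p : X.Pt) {b : chart X.g p.i} (hb : b ∉ p.P) :
    (b : K) ≠ 0 := by
  intro hc
  apply hb
  have : b = 0 := Subtype.ext hc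
  rw [this]; exact p.P.zero_mem

/-- The ratios of the homogeneous coordinates with the one of the chart of `p` are regular at `p`. -/
theorem NormalModel.ratio_mem_loc (X : NormalModel K) (p : X.Pt) (j : X.ι) :
    (X.g j : K) / X.g p.i ∈ X.loc p := by
  refine ⟨⟨(X.g j : K) / X.g p.i, Algebra.subset_adjoin ⟨j, rfl⟩⟩, 1, one_notMem X p, ?_⟩
  simp

/-- `X.loc p` is closed under products. -/
theorem NormalModel.mul_mem_loc (X : NormalModel K) (p : X.Pt) {x y : K} (hx : x ∈ X.loc p)
    (hy : y ∈ X.loc p) : x * y ∈ X.loc p := by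
  obtain ⟨a, b, hb, rfl⟩ := hx
  obtain ⟨c, d, hd, rfl⟩ := hy
  refine ⟨a * c, b * d, ?_, ?_⟩
  · intro h
    rcases p.prime.mem_or_mem h with h | h
    · exact hb h
    · exact hd h
  · push_cast
    rw [div_mul_div_comm]

/-- `X.loc p` is closed under sums. -/
theorem NormalModel.add_mem_loc (X : NormalModel K) (p : X.Pt) {x y : K} (hx : x ∈ X.loc p)
    (hy : y ∈ X.loc p) : x + y ∈ X.loc p := by
  obtain ⟨a, b, hb, rfl⟩ := hx
  obtain ⟨c, d, hd, rfl⟩ := hy
  refine ⟨a * d + b * c, b * d, ?_, ?_⟩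
  · intro h
    rcases p.prime.mem_or_mem h with h | h
    · exact hb h
    · exact hd h
  · push_cast
    rw [div_add_div _ _ (coe_ne_zero' X p hb) (coe_ne_zero' X p hd)]

theorem NormalModel.const_mem_loc (X : NormalModel K) (p : X.Pt) (c : ℂ) :
    algebraMap ℂ K c ∈ X.loc p := by
  refine ⟨algebraMap ℂ _ c, 1, one_notMem X p, ?_⟩
  simp

end Pool.Agent.LibGMM
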