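import Pool.Agent.LibGMM.G5

/-! TASK E0 (general facts on charts). -/

namespace Pool.Agent.LibGMM

variable {K : Type} [Field K] [Algebra ℂ K]

private theorem e0_ratio_mem {ι : Type} (g : ι → Kˣ) (i s : ι) : (g s : K) / g i ∈ chart g i :=
  Algebra.subset_adjoin ⟨s, rfl⟩

/-- Elements of the chart `s` become elements of the chart `i` after multiplication by a power of
`g s / g i`. (Induction on `Algebra.adjoin`; `g s / g i ∈ chart g i`.) -/
theorem chart_pow_mul_mem {ι : Type} (g : ι → Kˣ) (i s : ι) (x : K) (hx : x ∈ chart g s) :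
    ∃ n : ℕ, ∀ N, n ≤ N → ((g s : K) / g i) ^ N * x ∈ chart g i := by
  unfold chart at hx
  induction hx using Algebra.adjoin_induction with
  | mem x hx =>
    obtain ⟨j, rfl⟩ := hx
    refine ⟨1, fun N hN => ?_⟩
    obtain ⟨M, rfl⟩ := Nat.exists_eq_add_of_le hN
    have h1 : ((g s : K) / g i) ^ (1 + M) * ((g j : K) / g s) =
        ((g s : K) / g i) ^ M * ((g j : K) / g i) := by
      have hs := (g s).ne_zero
      rw [pow_add, pow_one]
      field_simp
    change ((g s : K) / g i) ^ (1 + M) * ((g j : K) / g s) ∈ chart g i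
    rw [h1]
    exact (chart g i).mul_mem ((chart g i).pow_mem (e0_ratio_mem g i s) M) (e0_ratio_mem g i j)
  | algebraMap r =>
    refine ⟨0, fun N _ => ?_⟩
    exact (chart g i).mul_mem ((chart g i).pow_mem (e0_ratio_mem g i s) N)
      ((chart g i).algebraMap_mem r)
  | add x y _ _ h1 h2 =>
    obtain ⟨n, hn⟩ := h1
    obtain ⟨m, hm⟩ := h2
    refine ⟨max n m, fun N hN => ?_⟩
    rw [mul_add]
    exact (chart g i).add_mem (hn N (le_trans (le_max_left _ _) hN))
      (hm N (le_trans (le_max_right _ _) hN))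
  | mul x y _ _ h1 h2 =>
    obtain ⟨n, hn⟩ := h1
    obtain ⟨m, hm⟩ := h2
    refine ⟨n + m, fun N hN => ?_⟩
    have h3 : ((g s : K) / g i) ^ N * (x * y) =
        (((g s : K) / g i) ^ (N - m) * x) * (((g s : K) / g i) ^ m * y) := by
      have h4 : ((g s : K) / g i) ^ N = ((g s : K) / g i) ^ (N - m) * ((g s : K) / g i) ^ m := by
        rw [← pow_add]
        congr 1
        omega
      rw [h4]
      ring
    rw [h3]
    exact (chart g i).mul_mem (hn _ (by omega)) (hm _ le_rfl)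

theorem chart_frac_of {ι : Type} (g : ι → Kˣ) (s : ι)
    (hs : ∀ x : K, ∃ a ∈ chart g s, ∃ b ∈ chart g s, b ≠ 0 ∧ x = a / b) (i : ι) (x : K) :
    ∃ a ∈ chart g i, ∃ b ∈ chart g i, b ≠ 0 ∧ x = a / b := by
  obtain ⟨a, ha, b, hb, hb0, rfl⟩ := hs x
  obtain ⟨n, hn⟩ := chart_pow_mul_mem g i s a ha
  obtain ⟨m, hm⟩ := chart_pow_mul_mem g i s b hb
  have hu : ((g s : K) / g i) ^ (n + m) ≠ 0 :=
    pow_ne_zero _ (div_ne_zero (g s).ne_zero (g i).ne_zero)
  refine ⟨_, hn (n + m) (by omega), _, hm (n + m) (by omega), mul_ne_zero hu hb0, ?_⟩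
  rw [mul_div_mul_left _ _ hu]

/-- The ring of a prime divisor is the local ring at each of its centres (a prime divisor can have
centres in several charts): if `p`, `p'` are centres, `X.g p'.i / X.g p.i` has order `0`; use
`chart_pow_mul_mem`. -/
theorem NormalModel.mem_loc_of_isCentre (X : NormalModel K) (Q : DVal K) (hQ : X.IsPrimeDiv Q)
    (p : X.Pt) (hp : X.IsCentre Q p) (x : K) (hx : 0 ≤ Q.ord x) : x ∈ X.loc p := by
  obtain ⟨p', hp', hloc⟩ := hQ
  obtain ⟨a, b, hb, rfl⟩ := hloc x hx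
  have hb0 : (b : K) ≠ 0 := by
    intro h
    exact hb ((hp' b).2.2 (Or.inl (Subtype.ext h)))
  have hbord : Q.ord (b : K) = 0 := by
    have h1 := (hp' b).1
    have h2 : ¬ 0 < Q.ord (b : K) := fun h => hb ((hp' b).2.2 (Or.inr h))
    omega
  have hu1 : 0 ≤ Q.ord ((X.g p'.i : K) / X.g p.i) :=
    (hp ⟨_, e0_ratio_mem X.g p.i p'.i⟩).1
  have hu2 : 0 ≤ Q.ord ((X.g p.i : K) / X.g p'.i) :=
    (hp' ⟨_, e0_ratio_mem X.g p'.i p.i⟩).1
  have hu : Q.ord ((X.g p'.i : K) / X.g p.i) = 0 := by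
    rw [Q.ord_div (X.g _).ne_zero (X.g _).ne_zero] at hu1 hu2 ⊢
    omega
  obtain ⟨n, hn⟩ := chart_pow_mul_mem X.g p.i p'.i a a.2
  obtain ⟨m, hm⟩ := chart_pow_mul_mem X.g p.i p'.i b b.2
  have hune : ((X.g p'.i : K) / X.g p.i) ^ (n + m) ≠ 0 :=
    pow_ne_zero _ (div_ne_zero (X.g _).ne_zero (X.g _).ne_zero)
  refine ⟨⟨_, hn (n + m) (by omega)⟩, ⟨_, hm (n + m) (by omega)⟩, ?_, ?_⟩
  · intro hmem
    rcases (hp _).2.1 hmem with h | h
    · have h' := congrArg Subtype.val h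
      exact mul_ne_zero hune hb0 h'
    · have h' : 0 < Q.ord (((X.g p'.i : K) / X.g p.i) ^ (n + m) * (b : K)) := h
      rw [Q.ord_mul' hune hb0, Q.ord_pow, hu, hbord] at h'
      simp at h'
  · change (a : K) / b = (((X.g p'.i : K) / X.g p.i) ^ (n + m) * (a : K)) /
      (((X.g p'.i : K) / X.g p.i) ^ (n + m) * (b : K))
    rw [mul_div_mul_left _ _ hune]

end Pool.Agent.LibGMM
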