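import Pool.Agent.LibGMM.Api

/-! TASK G2b. -/

namespace Pool.Agent.LibGMM

variable {K : Type} [Field K] [Algebra ℂ K]

/-- The discrete valuation of the field of fractions `K` of a discrete valuation ring `L`: every
nonzero element is uniquely a unit times a power of the uniformizer. -/
private theorem dvr_zpow {L K : Type} [CommRing L] [IsDomain L] [IsDiscreteValuationRing L]
    [Field K] [Algebra L K] [IsFractionRing L K] (ϖ : L) (hϖ : Irreducible ϖ) :
    (∀ z : K, z ≠ 0 → ∃ n : ℤ, ∃ u : Lˣ, z = algebraMap L K u * algebraMap L K ϖ ^ n) ∧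
    (∀ (n m : ℤ) (u : Lˣ) (l : L), algebraMap L K u * algebraMap L K ϖ ^ n =
      algebraMap L K l * algebraMap L K ϖ ^ m → m ≤ n) := by
  have hinj : Function.Injective (algebraMap L K) := IsFractionRing.injective L K
  have h0 : algebraMap L K ϖ ≠ 0 := fun h => hϖ.ne_zero (hinj (by rw [h, map_zero]))
  constructor
  · intro z hz
    obtain ⟨a, b, hb, rfl⟩ := IsFractionRing.div_surjective (A := L) z
    have hb0 : b ≠ 0 := nonZeroDivisors.ne_zero hb
    have ha0 : a ≠ 0 := by rintro rfl; simp at hz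
    obtain ⟨n, u, hu⟩ := IsDiscreteValuationRing.eq_unit_mul_pow_irreducible ha0 hϖ
    obtain ⟨m, v, hv⟩ := IsDiscreteValuationRing.eq_unit_mul_pow_irreducible hb0 hϖ
    refine ⟨(n : ℤ) - m, u * v⁻¹, ?_⟩
    have hv1 : algebraMap L K v ≠ 0 := fun h => v.ne_zero (hinj (by rw [h, map_zero]))
    have hv2 : algebraMap L K (v : L) * algebraMap L K ((v⁻¹ : Lˣ) : L) = 1 := by
      rw [← map_mul, Units.mul_inv, map_one]
    rw [hu, hv, zpow_sub₀ h0, zpow_natCast, zpow_natCast, map_mul, map_pow, map_mul, map_pow,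
      Units.val_mul, map_mul]
    have hp : algebraMap L K ϖ ^ m ≠ 0 := pow_ne_zero _ h0
    field_simp
    linear_combination -hv2
  · intro n m u l h
    by_contra hlt
    push Not at hlt
    obtain ⟨k, hk⟩ := Int.eq_ofNat_of_zero_le (show 0 ≤ m - n - 1 by omega)
    have hm : m = n + (k + 1 : ℕ) := by push_cast; omega
    rw [hm, zpow_add₀ h0, zpow_natCast] at h
    have hp : algebraMap L K ϖ ^ n ≠ 0 := zpow_ne_zero _ h0
    have h1 : algebraMap L K u = algebraMap L K (l * ϖ ^ (k + 1)) := by
      rw [map_mul, map_pow]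
      apply mul_right_cancel₀ hp
      linear_combination h
    have h2 := hinj h1
    apply hϖ.not_isUnit
    have h3 : IsUnit (l * ϖ ^ (k + 1)) := h2 ▸ u.isUnit
    have h4 : IsUnit (ϖ ^ (k + 1)) := isUnit_of_mul_isUnit_right h3
    exact (isUnit_pow_iff (Nat.succ_ne_zero k)).1 h4

/-- The discrete valuation of a localization which is a discrete valuation ring. -/
theorem dval_of_dvr (A : Subalgebra ℂ K) (hfrac : ∀ x : K, ∃ a ∈ A, ∃ b ∈ A, b ≠ 0 ∧ x = a / b)
    (P : Ideal A) [P.IsPrime] [IsDiscreteValuationRing (Localization.AtPrime P)] :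
    ∃ Q : DVal K, (∀ a : A, 0 ≤ Q.ord a ∧ (a ∈ P ↔ (a = 0 ∨ 0 < Q.ord a))) ∧
      ∀ y, 0 ≤ Q.ord y → ∃ a b : A, b ∉ P ∧ y = (a : K) / b := by
  classical
  -- `K` is the field of fractions of `A`
  have hAK : IsFractionRing A K := by
    refine IsFractionRing.of_field A K ?_
    intro x
    obtain ⟨a, ha, b, hb, hb0, h⟩ := hfrac x
    exact ⟨⟨a, ha⟩, ⟨b, hb⟩, h⟩
  have hne' : ∀ b : A, b ∉ P → algebraMap A K b ≠ 0 := fun b hb h =>
    hb (by
      have : b = 0 := Subtype.ext (by simpa using h)
      rw [this]; exact P.zero_mem)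
  let L := Localization.AtPrime P
  have : IsDomain L := IsLocalization.isDomain_localization (P.primeCompl_le_nonZeroDivisors)
  let _ : Algebra L K := IsLocalization.localizationAlgebraOfSubmonoidLe L K P.primeCompl
    (nonZeroDivisors A) P.primeCompl_le_nonZeroDivisors
  have : IsScalarTower A L K := IsLocalization.localization_isScalarTower_of_submonoid_le L K
    P.primeCompl (nonZeroDivisors A) P.primeCompl_le_nonZeroDivisors
  have : IsFractionRing L K :=
    IsFractionRing.isFractionRing_of_isDomain_of_isLocalization P.primeCompl L K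
  have hinj : Function.Injective (algebraMap L K) := IsFractionRing.injective L K
  have hsurj : ∀ z : L, ∃ a b : A, b ∉ P ∧
      algebraMap L K z = algebraMap A K a / algebraMap A K b ∧
      z * algebraMap A L b = algebraMap A L a := by
    intro z
    obtain ⟨⟨a, b⟩, h⟩ := IsLocalization.surj P.primeCompl z
    refine ⟨a, b, b.2, ?_, h⟩
    have hb0 := hne' b b.2
    rw [eq_div_iff hb0, IsScalarTower.algebraMap_apply A L K, IsScalarTower.algebraMap_apply A L K,
      ← map_mul, h]
  obtain ⟨ϖ, hϖ⟩ := IsDiscreteValuationRing.exists_irreducible L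
  obtain ⟨hex, hle⟩ := dvr_zpow (K := K) ϖ hϖ
  have h0 : algebraMap L K ϖ ≠ 0 := fun h => hϖ.ne_zero (hinj (by rw [h, map_zero]))
  have hu0 : ∀ u : Lˣ, algebraMap L K u ≠ 0 := fun u h =>
    u.ne_zero (hinj (by rw [h, map_zero]))
  have hex' : ∀ z : K, ∃ n : ℤ, (z = 0 → n = 0) ∧
      (z ≠ 0 → ∃ u : Lˣ, z = algebraMap L K u * algebraMap L K ϖ ^ n) := by
    intro z
    by_cases hz : z = 0
    · exact ⟨0, fun _ => rfl, fun h => absurd hz h⟩
    · obtain ⟨n, u, h⟩ := hex z hz
      exact ⟨n, fun h => absurd h hz, fun _ => ⟨u, h⟩⟩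
  choose ord hord0 hord using hex'
  have huniq : ∀ (z : K) (n : ℤ) (u : Lˣ), z = algebraMap L K u * algebraMap L K ϖ ^ n →
      ord z = n := by
    intro z n u h
    have hz : z ≠ 0 := by rw [h]; exact mul_ne_zero (hu0 u) (zpow_ne_zero _ h0)
    obtain ⟨v, hv⟩ := hord z hz
    exact le_antisymm (hle _ _ u v (h.symm.trans hv)) (hle _ _ v u (hv.symm.trans h))
  have hge : ∀ (z : K) (k : ℤ), z ≠ 0 → (k ≤ ord z ↔
      ∃ l : L, z = algebraMap L K l * algebraMap L K ϖ ^ k) := by
    intro z k hz
    obtain ⟨v, hv⟩ := hord z hz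
    constructor
    · intro hk
      obtain ⟨j, hj⟩ := Int.eq_ofNat_of_zero_le (show 0 ≤ ord z - k by omega)
      refine ⟨v * ϖ ^ j, ?_⟩
      have h1 : ord z = j + k := by omega
      rw [h1, zpow_add₀ h0, zpow_natCast] at hv
      rw [map_mul, map_pow, mul_assoc]
      exact hv
    · rintro ⟨l, hl⟩
      exact hle _ _ v l (hv.symm.trans hl)
  let Q : DVal K :=
    { ord := ord
      ord_zero := hord0 0 rfl
      ord_mul := by
        intro a b ha hb
        obtain ⟨u, hu⟩ := hord a ha
        obtain ⟨v, hv⟩ := hord b hb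
        apply huniq _ _ (u * v)
        rw [zpow_add₀ h0, Units.val_mul, map_mul]
        calc a * b = (algebraMap L K u * algebraMap L K ϖ ^ ord a) *
            (algebraMap L K v * algebraMap L K ϖ ^ ord b) := by rw [← hu, ← hv]
          _ = _ := by ring
      ord_add := by
        intro a b ha hb hab
        obtain ⟨l, hl⟩ := (hge a _ ha).1 (min_le_left (ord a) (ord b))
        obtain ⟨l', hl'⟩ := (hge b _ hb).1 (min_le_right (ord a) (ord b))
        rw [hge _ _ hab]
        refine ⟨l + l', ?_⟩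
        rw [map_add, add_mul, ← hl, ← hl']
      ord_const := by
        intro c
        by_cases hc : c = 0
        · rw [hc, map_zero]; exact hord0 0 rfl
        have hcu : IsUnit (algebraMap ℂ A c) := (isUnit_iff_ne_zero.2 hc).map _
        have hcu' : IsUnit (algebraMap A L (algebraMap ℂ A c)) := hcu.map _
        obtain ⟨u, hu⟩ := hcu'
        apply huniq _ _ u
        rw [zpow_zero, mul_one, hu, ← IsScalarTower.algebraMap_apply A L K]
        rfl
      exists_ord_one := by
        refine ⟨algebraMap L K ϖ, huniq _ _ 1 ?_⟩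
        rw [zpow_one, Units.val_one, map_one, one_mul] }
  have hQ : ∀ z, Q.ord z = ord z := fun z => rfl
  refine ⟨Q, ?_, ?_⟩
  · intro a
    rw [hQ]
    by_cases ha : a = 0
    · subst ha
      have : ord ((0 : A) : K) = 0 := hord0 _ (by simp)
      rw [this]
      exact ⟨le_rfl, ⟨fun _ => Or.inl rfl, fun _ => P.zero_mem⟩⟩
    have haK : (a : K) ≠ 0 := fun h => ha (Subtype.ext h)
    have hal : (a : K) = algebraMap L K (algebraMap A L a) := by
      rw [← IsScalarTower.algebraMap_apply A L K]; rfl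
    have hnn : 0 ≤ ord a := by
      rw [hge _ _ haK]
      exact ⟨algebraMap A L a, by rw [zpow_zero, mul_one]; exact hal⟩
    refine ⟨hnn, ?_⟩
    have h1 : a ∈ P ↔ ¬ IsUnit (algebraMap A L a) := by
      rw [IsLocalization.AtPrime.isUnit_to_map_iff L P a]
      simp [Ideal.primeCompl]
    rw [h1]
    constructor
    · intro hnu
      right
      rcases hnn.lt_or_eq with h | h
      · exact h
      exfalso
      apply hnu
      obtain ⟨u, hu⟩ := hord a haK
      rw [← h, zpow_zero, mul_one, hal] at hu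
      rw [hinj hu]
      exact u.isUnit
    · rintro (h | h) hu
      · exact ha h
      · obtain ⟨u, hu⟩ := hu
        have := huniq a 0 u (by rw [zpow_zero, mul_one, hu]; exact hal)
        omega
  · intro y hy
    by_cases hy0 : y = 0
    · refine ⟨0, 1, fun h => (Ideal.IsPrime.ne_top ‹P.IsPrime›) ((Ideal.eq_top_iff_one P).2 h), ?_⟩
      simp [hy0]
    rw [hQ] at hy
    obtain ⟨l, hl⟩ := (hge y 0 hy0).1 hy
    obtain ⟨a, b, hb, h, -⟩ := hsurj l
    refine ⟨a, b, hb, ?_⟩
    rw [hl, zpow_zero, mul_one, h]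
    rfl

end Pool.Agent.LibGMM
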