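import Pool.Agent.LibGMM.G2a
import Pool.Agent.LibGMM.G2b

/-! TASK G3 (uses G2a, G2b). -/

namespace Pool.Agent.LibGMM

variable {K : Type} [Field K] [Algebra ℂ K]

private theorem chart_noeth3 (X : NormalModel K) (i : X.ι) : IsNoetherianRing (chart X.g i) := by
  have := X.fin
  have hfg : (chart X.g i).FG := by
    refine ⟨(Set.finite_range fun j => (X.g j : K) / X.g i).toFinset, ?_⟩
    rw [Set.Finite.coe_toFinset]; rfl
  have : Algebra.FiniteType ℂ (chart X.g i) := (Subalgebra.fg_iff_finiteType _).1 hfg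
  exact Algebra.FiniteType.isNoetherianRing ℂ _

private theorem chart_frac (X : NormalModel K) (i : X.ι) : IsFractionRing (chart X.g i) K := by
  refine IsFractionRing.of_field (chart X.g i) K ?_
  intro z
  obtain ⟨a, ha, b, hb, hb0, hab⟩ := X.frac i z
  exact ⟨⟨a, ha⟩, ⟨b, hb⟩, hab⟩

/-- A rational function which is not regular at `p` has a pole along a prime divisor through `p`. -/
theorem NormalModel.exists_primeDiv_neg (X : NormalModel K) (p : X.Pt) (x : K) (hx : x ∉ X.loc p) :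
    ∃ Q, X.IsPrimeDiv Q ∧ X.Through Q p ∧ Q.ord x < 0 := by
  have hN := chart_noeth3 X p.i
  have hF := chart_frac X p.i
  have hI : IsIntegrallyClosed (chart X.g p.i) := by
    rw [isIntegrallyClosed_iff K]
    intro y hy
    exact ⟨⟨y, X.normal p.i y hy⟩, rfl⟩
  have := p.prime
  obtain ⟨P', hP', hle, hD, hP'x⟩ := exists_dvr_of_not_mem (K := K) p.P x (by
    intro a b hb h
    exact hx ⟨a, b, hb, h⟩)
  obtain ⟨Q, hQ1, hQ2⟩ := dval_of_dvr (chart X.g p.i) (X.frac p.i) P'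
  have hQc : X.IsCentre Q ⟨p.i, P', hP'⟩ := hQ1
  refine ⟨Q, ⟨⟨p.i, P', hP'⟩, hQc, hQ2⟩, ?_, ?_⟩
  · rintro y ⟨a, b, hb, rfl⟩
    have hb' : b ∉ P' := fun h => hb (hle h)
    have h4 : ¬ (b = 0 ∨ 0 < Q.ord b) := fun hc => hb' ((hQ1 b).2.2 hc)
    push Not at h4
    by_cases hc : (a : K) = 0
    · simp [hc]
    have hd' : (b : K) ≠ 0 := fun h => h4.1 (Subtype.ext h)
    rw [Q.ord_div hc hd']
    have := (hQ1 a).1
    have h5 : Q.ord (b : K) ≤ 0 := h4.2
    omega
  · by_contra hcon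
    obtain ⟨a, b, hb, hab⟩ := hQ2 x (not_lt.1 hcon)
    exact hP'x a b hb hab

theorem NormalModel.mem_loc (X : NormalModel K) (p : X.Pt) (x : K)
    (hx : ∀ Q, X.IsPrimeDiv Q → X.Through Q p → 0 ≤ Q.ord x) : x ∈ X.loc p := by
  by_contra h
  obtain ⟨Q, h1, h2, h3⟩ := X.exists_primeDiv_neg p x h
  exact absurd (hx Q h1 h2) (not_le.2 h3)

end Pool.Agent.LibGMM
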