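import Pool.Agent.LibGMM.Api

/-! TASK G4. -/

namespace Pool.Agent.LibGMM

variable {K : Type} [Field K] [Algebra ℂ K]

private theorem chart_noeth (X : NormalModel K) (i : X.ι) : IsNoetherianRing (chart X.g i) := by
  have := X.fin
  have hfg : (chart X.g i).FG := by
    refine ⟨(Set.finite_range fun j => (X.g j : K) / X.g i).toFinset, ?_⟩
    rw [Set.Finite.coe_toFinset]; rfl
  have : Algebra.FiniteType ℂ (chart X.g i) := (Subalgebra.fg_iff_finiteType _).1 hfg
  exact Algebra.FiniteType.isNoetherianRing ℂ _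

private theorem finite_chart (X : NormalModel K) (u : Kˣ) (i : X.ι) :
    {Q : DVal K | ∃ (P : Ideal (chart X.g i)) (hP : P.IsPrime), X.IsCentre Q ⟨i, P, hP⟩ ∧
      (∀ x, 0 ≤ Q.ord x → x ∈ X.loc ⟨i, P, hP⟩) ∧ Q.ord u ≠ 0}.Finite := by
  have hN := chart_noeth X i
  obtain ⟨a, ha, b, hb, hb0, hab⟩ := X.frac i u
  have ha0 : a ≠ 0 := by
    rintro rfl
    rw [zero_div] at hab
    exact u.ne_zero hab
  set a' : chart X.g i := ⟨a, ha⟩ with ha'
  set b' : chart X.g i := ⟨b, hb⟩ with hb'
  have hfin : ((Ideal.span {a' * b'}).minimalPrimes).Finite :=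
    Ideal.finite_minimalPrimes_of_isNoetherianRing _ _
  refine Set.Finite.subset (Set.Finite.biUnion hfin (t := fun P => {Q : DVal K |
    ∃ (hP : P.IsPrime), X.IsCentre Q ⟨i, P, hP⟩ ∧
      (∀ x, 0 ≤ Q.ord x → x ∈ X.loc ⟨i, P, hP⟩)}) ?_) ?_
  · intro P _
    apply Set.Subsingleton.finite
    rintro Q ⟨hP, h1, h2⟩ Q' ⟨_, h1', h2'⟩
    apply DVal.ext_ring
    intro x hx
    obtain ⟨c, d, hd, rfl⟩ := h2 x hx
    have h3 := h1' d
    have h4 : ¬ (d = 0 ∨ 0 < Q'.ord d) := fun hc => hd (h3.2.2 hc)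
    push Not at h4
    by_cases hc : (c : K) = 0
    · simp [hc]
    have hd' : (d : K) ≠ 0 := fun h => h4.1 (Subtype.ext h)
    rw [Q'.ord_div hc hd']
    have := (h1' c).1
    change 0 ≤ Q'.ord (c : K) at this
    have h5 : Q'.ord (d : K) ≤ 0 := h4.2
    omega
  · rintro Q ⟨P, hP, h1, h2, h3⟩
    rw [Set.mem_iUnion₂]
    refine ⟨P, ?_, hP, h1, h2⟩
    have hqa := h1 a'
    have hqb := h1 b'
    have hqa1 : 0 ≤ Q.ord a := hqa.1
    have hqb1 : 0 ≤ Q.ord b := hqb.1
    rw [hab, Q.ord_div ha0 hb0] at h3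
    have hmem : a' * b' ∈ P := by
      by_cases h : Q.ord a = 0
      · apply P.mul_mem_left
        apply hqb.2.2
        right
        change 0 < Q.ord b
        omega
      · apply P.mul_mem_right
        apply hqa.2.2
        right
        change 0 < Q.ord a
        omega
    refine ⟨⟨hP, (Ideal.span_singleton_le_iff_mem _).2 hmem⟩, ?_⟩
    rintro P' ⟨hP', hle⟩ hP'P
    change P ≤ P'
    intro c hc
    have hab' : a' * b' ∈ P' := hle (Ideal.mem_span_singleton_self _)
    by_cases hc0 : c = 0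
    · rw [hc0]; exact P'.zero_mem
    have hc0' : (c : K) ≠ 0 := fun h => hc0 (Subtype.ext h)
    have hqc : 0 < Q.ord (c : K) := by
      rcases (h1 c).2.1 hc with h | h
      · exact absurd h hc0
      · exact h
    have habne : a * b ≠ 0 := mul_ne_zero ha0 hb0
    have hn : 0 ≤ Q.ord ((c : K) ^ (Q.ord (a * b)).toNat / (a * b)) := by
      rw [Q.ord_div (pow_ne_zero _ hc0') habne, Q.ord_pow]
      have h5 : 0 ≤ Q.ord (a * b) := by
        rw [Q.ord_mul _ _ ha0 hb0]; omega
      rw [Int.toNat_of_nonneg h5]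
      nlinarith
    obtain ⟨r, s, hs, hrs⟩ := h2 _ hn
    have hs0 : (s : K) ≠ 0 := by
      intro h
      apply hs
      have : s = 0 := Subtype.ext h
      rw [this]; exact P.zero_mem
    rw [div_eq_div_iff habne hs0] at hrs
    have heq : c ^ (Q.ord (a * b)).toNat * s = r * (a' * b') := by
      apply Subtype.ext
      push_cast
      exact hrs
    have hmem2 : c ^ (Q.ord (a * b)).toNat * s ∈ P' := by
      rw [heq]; exact P'.mul_mem_left _ hab'
    rcases hP'.mem_or_mem hmem2 with h | h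
    · exact hP'.mem_of_pow_mem _ h
    · exact absurd (hP'P h) hs

/-- A rational function has finitely many zeros and poles. (The chart of the centre of `Q` is a
Noetherian ring; the centre is a minimal prime over the numerator or the denominator; `Q` is
determined by its centre: `DVal.ext_ring`.) -/
theorem NormalModel.finite_ord_ne (X : NormalModel K) (u : Kˣ) :
    {Q | X.IsPrimeDiv Q ∧ Q.ord u ≠ 0}.Finite := by
  have := X.fin
  refine Set.Finite.subset (Set.finite_iUnion fun i => finite_chart X u i) ?_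
  rintro Q ⟨⟨⟨i, P, hP⟩, h1, h2⟩, h3⟩
  rw [Set.mem_iUnion]
  exact ⟨i, P, hP, h1, h2, h3⟩

end Pool.Agent.LibGMM
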