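import Pool.Agent.LibGMM.Api

/-! Top forms and lattices: the order of a top form only depends on the lattice. -/

open scoped KaehlerDifferential

namespace Pool.Agent.LibGMM

/-- An alternating map of a linear substitution. -/
theorem alt_subst {K V : Type*} [Field K] [AddCommGroup V] [Module K V] {n : ℕ}
    (lam : V [⋀^Fin n]→ₗ[K] K) (w z : Fin n → V) (A : Fin n → Fin n → K)
    (h : ∀ i, z i = ∑ j, A i j • w j) : lam z = Matrix.det (Matrix.of A) * lam w := by
  let L : (Fin n → K) →ₗ[K] V := Fintype.linearCombination K w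
  have h1 := AlternatingMap.eq_smul_basis_det (Pi.basisFun K (Fin n)) (lam.compLinearMap L)
  have h2 := congrArg (fun f => f A) h1
  simp only [AlternatingMap.compLinearMap_apply, AlternatingMap.smul_apply] at h2
  have h3 : (fun i => L (A i)) = z := by
    funext i
    rw [h i]
    simp [L, Fintype.linearCombination_apply]
  have h4 : (fun i => L ((Pi.basisFun K (Fin n)) i)) = w := by
    funext i
    simp [L, Fintype.linearCombination_apply, Pi.single_apply]
  rw [h3] at h2
  rw [h2, Pi.basisFun_det]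
  have h5 : (lam fun i => L ((Pi.basisFun K (Fin n)) i)) = lam w := by rw [h4]
  rw [h5, smul_eq_mul, mul_comm]
  rfl

variable {K : Type} [Field K] [Algebra ℂ K] (O : DVal K)
variable {V : Type*} [AddCommGroup V] [Module K V]

theorem alt_mem_ring {n : ℕ} (lam : V [⋀^Fin n]→ₗ[K] K) (w z : Fin n → V)
    (h : ∀ i, z i ∈ Submodule.span O.ring (Set.range w)) :
    ∃ r : O.ring, lam z = (r : K) * lam w := by
  have h1 : ∀ i, ∃ c : Fin n → O.ring, ∑ j, c j • w j = z i := fun i =>
    (Submodule.mem_span_range_iff_exists_fun O.ring).1 (h i)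
  choose A hA using h1
  refine ⟨Matrix.det (Matrix.of A), ?_⟩
  rw [alt_subst lam w z (fun i j => (A i j : K)) (fun i => (hA i).symm)]
  congr 1
  have := RingHom.map_det (O.ring.val : O.ring →+* K) (Matrix.of A)
  exact this.symm

/-- Two families with the same span over the ring of `O` have the same order. -/
theorem alt_ord_eq {n : ℕ} (lam : V [⋀^Fin n]→ₗ[K] K) (w z : Fin n → V)
    (h : ∀ i, z i ∈ Submodule.span O.ring (Set.range w))
    (h' : ∀ i, w i ∈ Submodule.span O.ring (Set.range z)) (h0 : lam w ≠ 0) :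
    lam z ≠ 0 ∧ O.ord (lam z) = O.ord (lam w) := by
  obtain ⟨r, hr⟩ := alt_mem_ring O lam w z h
  obtain ⟨r', hr'⟩ := alt_mem_ring O lam z w h'
  have hz : lam z ≠ 0 := by
    intro h1
    rw [h1, mul_zero] at hr'
    exact h0 hr'
  have hr0 : (r : K) ≠ 0 := by
    intro h1
    rw [h1, zero_mul] at hr
    exact hz hr
  have hr0' : (r' : K) ≠ 0 := by
    intro h1
    rw [h1, zero_mul] at hr'
    exact h0 hr'
  have e1 := congrArg O.ord hr
  have e2 := congrArg O.ord hr'
  rw [O.ord_mul _ _ hr0 h0] at e1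
  rw [O.ord_mul _ _ hr0' hz] at e2
  have p1 : 0 ≤ O.ord r := r.2
  have p2 : 0 ≤ O.ord r' := r'.2
  exact ⟨hz, by omega⟩

/-- Exchange: the two top minors of a family with one relation are proportional to the coefficients
of the relation. -/
theorem alt_exchange {n : ℕ} (lam : V [⋀^Fin n]→ₗ[K] K) {ι : Type*} [Fintype ι] [DecidableEq ι]
    (E : ι → V) (a : ι → K) (hrel : ∑ i, a i • E i = 0) (k k' : ι) (hk : a k ≠ 0) (hk' : a k' ≠ 0)
    (ν : Fin n ≃ {i // i ≠ k}) (ν' : Fin n ≃ {i // i ≠ k'})
    (h0 : lam (fun i => E (ν i)) ≠ 0) :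
    lam (fun i => E (ν' i)) ≠ 0 ∧
      O.ord (lam fun i => E (ν' i)) - O.ord (a k') = O.ord (lam fun i => E (ν i)) - O.ord (a k) := by
  by_cases hkk : k = k'
  · subst hkk
    have h1 : ∀ i, E (ν' i) ∈ Submodule.span O.ring (Set.range fun i => E (ν i)) := fun i =>
      Submodule.subset_span ⟨ν.symm (ν' i), by simp⟩
    have h2 : ∀ i, E (ν i) ∈ Submodule.span O.ring (Set.range fun i => E (ν' i)) := fun i =>
      Submodule.subset_span ⟨ν'.symm (ν i), by simp⟩
    have h3 := alt_ord_eq O lam (fun i => E (ν i)) (fun i => E (ν' i)) h1 h2 h0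
    exact ⟨h3.1, by rw [h3.2]⟩
  set w : Fin n → V := fun i => E (ν i) with hw
  set i0 : Fin n := ν.symm ⟨k', fun h => hkk h.symm⟩ with hi0
  have hνi0 : (ν i0 : ι) = k' := by simp [hi0]
  set z : Fin n → V := Function.update w i0 (E k) with hz
  -- value of lam z
  have hEk : E k = ∑ i : Fin n, (-(a (ν i) / a k)) • w i := by
    have h1 : ∑ i : Fin n, (a (ν i)) • w i = ∑ i : {i // i ≠ k}, a i • E i :=
      Equiv.sum_comp ν (fun i : {i // i ≠ k} => a i • E i)
    have h2 : a k • E k + ∑ i : {i // i ≠ k}, a i • E i = 0 := by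
      rw [← hrel, ← Finset.add_sum_erase Finset.univ _ (Finset.mem_univ k)]
      congr 1
      exact (Finset.sum_subtype (p := fun i => i ≠ k) (Finset.univ.erase k) (by simp)
        (fun i => a i • E i)).symm
    have h3 : a k • E k = -∑ i : Fin n, (a (ν i)) • w i := by
      rw [h1]; exact eq_neg_of_add_eq_zero_left h2
    have h4 : E k = (a k)⁻¹ • (a k • E k) := by
      rw [smul_smul, inv_mul_cancel₀ hk, one_smul]
    rw [h4, h3, smul_neg, Finset.smul_sum, ← Finset.sum_neg_distrib]
    refine Finset.sum_congr rfl fun i _ => ?_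
    rw [smul_smul, neg_smul, div_eq_inv_mul]
  have hlz : lam z = -(a k' / a k) * lam w := by
    rw [hz, hEk, AlternatingMap.map_update_sum]
    rw [Finset.sum_eq_single i0]
    · rw [AlternatingMap.map_update_smul, Function.update_eq_self, hνi0, smul_eq_mul]
    · intro j _ hj
      rw [AlternatingMap.map_update_smul, AlternatingMap.map_update_self _ _ (fun h => hj h.symm),
        smul_zero]
    · intro h; exact absurd (Finset.mem_univ _) h
  have hlz0 : lam z ≠ 0 := by
    rw [hlz]
    exact mul_ne_zero (neg_ne_zero.2 (div_ne_zero hk' hk)) h0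
  have hordz : O.ord (lam z) = O.ord (a k') - O.ord (a k) + O.ord (lam w) := by
    rw [hlz, O.ord_mul _ _ (neg_ne_zero.2 (div_ne_zero hk' hk)) h0, O.ord_neg, O.ord_div hk' hk]
  -- z and E ∘ ν' have the same range
  have h1 : ∀ i, E (ν' i) ∈ Submodule.span O.ring (Set.range z) := by
    intro i
    apply Submodule.subset_span
    by_cases hi : (ν' i : ι) = k
    · exact ⟨i0, by simp [hz, hi]⟩
    · refine ⟨ν.symm ⟨ν' i, hi⟩, ?_⟩
      have : ν.symm ⟨ν' i, hi⟩ ≠ i0 := by
        intro h
        have h2 := congrArg ν h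
        rw [Equiv.apply_symm_apply] at h2
        have h3 := congrArg Subtype.val h2
        simp only [hνi0] at h3
        exact (ν' i).2 h3
      rw [hz, Function.update_of_ne this, hw]
      simp
  have h2 : ∀ i, z i ∈ Submodule.span O.ring (Set.range fun i => E (ν' i)) := by
    intro i
    apply Submodule.subset_span
    by_cases hi : i = i0
    · refine ⟨ν'.symm ⟨k, hkk⟩, ?_⟩
      subst hi
      simp [hz]
    · have h3 : (ν i : ι) ≠ k' := by
        intro h
        apply hi
        rw [hi0, Equiv.eq_symm_apply]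
        exact Subtype.ext h
      refine ⟨ν'.symm ⟨ν i, h3⟩, ?_⟩
      rw [hz, Function.update_of_ne hi, hw]
      simp
  have h3 := alt_ord_eq O lam z (fun i => E (ν' i)) h1 h2 hlz0
  refine ⟨h3.1, ?_⟩
  rw [h3.2, hordz]; ring

end Pool.Agent.LibGMM
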