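import Pool.Agent.LibGMM.CanAlt

/-! The order of a top form along a discrete valuation with a known lattice of differentials. -/

open scoped KaehlerDifferential

namespace Pool.Agent.LibGMM

variable {K : Type} [Field K] [Algebra ℂ K]

theorem exists_coord (hfin : Module.Finite K (Ω[K⁄ℂ])) (ω : TopForm K) (hω : ω ≠ 0) :
    ∃ lam : (Ω[K⁄ℂ]) [⋀^Fin (Module.finrank K (Ω[K⁄ℂ]))]→ₗ[K] K, lam ≠ 0 ∧
      ∀ (x : Fin (Module.finrank K (Ω[K⁄ℂ])) → K)
        (D : Fin (Module.finrank K (Ω[K⁄ℂ])) → Derivation ℂ K K),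
        (Matrix.det fun i j => D i (x j)) =
          lam (fun j => KaehlerDifferential.D ℂ K (x j)) * ω D := by
  classical
  let b : Module.Basis (Fin (Module.finrank K (Ω[K⁄ℂ]))) K (Ω[K⁄ℂ]) := Module.finBasis K (Ω[K⁄ℂ])
  let e : Module.Basis (Fin (Module.finrank K (Ω[K⁄ℂ]))) K (Derivation ℂ K K) :=
    b.dualBasis.map (KaehlerDifferential.linearMapEquivDerivation ℂ K)
  let ω' : (Derivation ℂ K K) [⋀^Fin (Module.finrank K (Ω[K⁄ℂ]))]→ₗ[K] K := ω
  have hω' : ω' ≠ 0 := hω
  have h1 : ω' = ω' e • e.det := AlternatingMap.eq_smul_basis_det e ω'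
  have hc : ω' e ≠ 0 := by
    intro h
    rw [h, zero_smul] at h1
    exact hω' h1
  have hb : b.det ≠ 0 := by
    intro h
    have := b.det_self
    rw [h] at this
    simp at this
  refine ⟨(ω' e)⁻¹ • b.det, smul_ne_zero (inv_ne_zero hc) hb, fun x D => ?_⟩
  have hA : ∀ i k, e.repr (D i) k = (D i).liftKaehlerDifferential (b k) := by
    intro i k
    simp only [e, Module.Basis.map_repr, LinearEquiv.trans_apply]
    rw [Module.Basis.dualBasis_repr]
    rfl
  have h2 : (fun i j => D i (x j) : Matrix _ _ K) =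
      (Matrix.of fun i k => e.repr (D i) k) *
        (Matrix.of fun k j => b.repr (KaehlerDifferential.D ℂ K (x j)) k) := by
    ext i j
    rw [Matrix.mul_apply]
    simp only [Matrix.of_apply, hA]
    have h3 := b.sum_repr (KaehlerDifferential.D ℂ K (x j))
    have h4 := congrArg (D i).liftKaehlerDifferential h3
    rw [Derivation.liftKaehlerDifferential_comp_D, map_sum] at h4
    rw [← h4]
    refine Finset.sum_congr rfl fun k _ => ?_
    rw [map_smul, smul_eq_mul, mul_comm]
  have h5 : e.det D = (Matrix.of fun i k => e.repr (D i) k).det := by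
    rw [← Matrix.det_transpose, Module.Basis.det_apply]
    rfl
  have h6 : b.det (fun j => KaehlerDifferential.D ℂ K (x j)) =
      (Matrix.of fun k j => b.repr (KaehlerDifferential.D ℂ K (x j)) k).det := by
    rw [Module.Basis.det_apply]
    rfl
  have h7 : ω D = ω' e * e.det D := by
    change ω' D = _
    conv_lhs => rw [h1]
    rfl
  rw [h2, Matrix.det_mul, ← h5, ← h6, h7, AlternatingMap.smul_apply, smul_eq_mul]
  field_simp

theorem coord_ne_zero
    (lam : (Ω[K⁄ℂ]) [⋀^Fin (Module.finrank K (Ω[K⁄ℂ]))]→ₗ[K] K) (hlam : lam ≠ 0)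
    (w : Fin (Module.finrank K (Ω[K⁄ℂ])) → Ω[K⁄ℂ])
    (hw : ∀ z, z ∈ Submodule.span K (Set.range w)) : lam w ≠ 0 := by
  intro h0
  apply hlam
  ext z
  have h2 : ∀ i, ∃ c : Fin _ → K, ∑ j, c j • w j = z i := fun i =>
    (Submodule.mem_span_range_iff_exists_fun K).1 (hw (z i))
  choose A hA using h2
  rw [alt_subst lam w z A (fun i => (hA i).symm), h0, mul_zero]
  rfl

theorem canOrd_eq (O : DVal K) {ω : TopForm K} (hω : ω ≠ 0)
    (lam : (Ω[K⁄ℂ]) [⋀^Fin (Module.finrank K (Ω[K⁄ℂ]))]→ₗ[K] K)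
    (hlam : ∀ (x : Fin (Module.finrank K (Ω[K⁄ℂ])) → K)
        (D : Fin (Module.finrank K (Ω[K⁄ℂ])) → Derivation ℂ K K),
        (Matrix.det fun i j => D i (x j)) =
          lam (fun j => KaehlerDifferential.D ℂ K (x j)) * ω D)
    (x : Fin (Module.finrank K (Ω[K⁄ℂ])) → O.ring)
    (hspan : ∀ z : O.ring, KaehlerDifferential.D ℂ K (z : K) ∈
      Submodule.span O.ring (Set.range fun i => KaehlerDifferential.D ℂ K (x i : K)))
    (h0 : (lam fun i => KaehlerDifferential.D ℂ K (x i : K)) ≠ 0) :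
    canOrd O ω = - O.ord (lam fun i => KaehlerDifferential.D ℂ K (x i : K)) := by
  set g := lam fun i => KaehlerDifferential.D ℂ K (x i : K) with hg
  unfold canOrd
  apply IsGreatest.csSup_eq
  constructor
  · refine ⟨g⁻¹, fun i => (x i : K), inv_ne_zero h0, O.ord_inv _, fun i => (x i).2, fun D => ?_⟩
    have h1 := hlam (fun i => (x i : K)) D
    rw [← hg] at h1
    have h2 : ω D = g⁻¹ * (g * ω D) := by
      rw [← mul_assoc, inv_mul_cancel₀ h0, one_mul]
    exact h2.trans (congrArg (fun y => g⁻¹ * y) h1.symm)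
  · rintro k ⟨t, z, ht, rfl, hz, hD⟩
    obtain ⟨D, hD0⟩ : ∃ D, ω D ≠ 0 := by
      by_contra hcon
      push Not at hcon
      exact hω (AlternatingMap.ext hcon)
    have h1 := hD D
    have h2 := hlam z D
    have h3 : (Matrix.det fun i j => D i (z j)) =
      lam (fun j => KaehlerDifferential.D ℂ K (z j)) * ω D := h2
    rw [h3] at h1
    obtain ⟨r, hr⟩ := alt_mem_ring O lam (fun i => KaehlerDifferential.D ℂ K (x i : K))
      (fun i => KaehlerDifferential.D ℂ K (z i : K)) (fun i => hspan ⟨z i, hz i⟩)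
    rw [← hg] at hr
    have h4 : t * (r * g) = 1 := by
      have h5 : (t * (r * g)) * ω D = 1 * ω D := by
        rw [one_mul]
        conv_rhs => rw [h1, hr]
        ring
      exact mul_right_cancel₀ hD0 h5
    have hr0 : (r : K) ≠ 0 := by
      intro h6; rw [h6, zero_mul, mul_zero] at h4; exact zero_ne_one h4
    have h7 := congrArg O.ord h4
    rw [O.ord_mul _ _ ht (mul_ne_zero hr0 h0), O.ord_mul _ _ hr0 h0, O.ord_one] at h7
    have h8 : 0 ≤ O.ord r := r.2
    omega

end Pool.Agent.LibGMM
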