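import Pool.Agent.LibGMM.Hyper

/-! Basic properties of discrete valuations. -/

open scoped KaehlerDifferential

namespace Pool.Agent.LibGMM

variable {K : Type} [Field K] [Algebra ℂ K]

namespace DVal

variable (O : DVal K)

@[simp] theorem ord_zero' : O.ord 0 = 0 := O.ord_zero

@[simp] theorem ord_one : O.ord 1 = 0 := by
  have := O.ord_const 1
  simpa using this

theorem ord_mul' {a b : K} (ha : a ≠ 0) (hb : b ≠ 0) : O.ord (a * b) = O.ord a + O.ord b :=
  O.ord_mul a b ha hb

theorem ord_neg (a : K) : O.ord (-a) = O.ord a := by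
  by_cases h : a = 0
  · simp [h]
  have h1 : O.ord (-1 : K) = 0 := by
    have := O.ord_const (-1)
    simpa using this
  have : -a = (-1 : K) * a := by ring
  rw [this, O.ord_mul _ _ (by simp) h, h1, zero_add]

theorem ord_inv (a : K) : O.ord a⁻¹ = - O.ord a := by
  by_cases h : a = 0
  · simp [h]
  have h1 := O.ord_mul a a⁻¹ h (inv_ne_zero h)
  rw [mul_inv_cancel₀ h, ord_one] at h1
  omega

theorem ord_div {a b : K} (ha : a ≠ 0) (hb : b ≠ 0) : O.ord (a / b) = O.ord a - O.ord b := by
  rw [div_eq_mul_inv, O.ord_mul _ _ ha (inv_ne_zero hb), ord_inv]; ring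

theorem ord_pow (a : K) (n : ℕ) : O.ord (a ^ n) = n * O.ord a := by
  by_cases h : a = 0
  · subst h
    rcases Nat.eq_zero_or_pos n with rfl | hn
    · simp
    · simp [zero_pow hn.ne']
  induction n with
  | zero => simp
  | succ n ih =>
    rw [pow_succ, O.ord_mul _ _ (pow_ne_zero _ h) h, ih]; push_cast; ring

theorem ord_zpow (a : K) (n : ℤ) : O.ord (a ^ n) = n * O.ord a := by
  cases n with
  | ofNat n => simpa using O.ord_pow a n
  | negSucc n =>
    rw [zpow_negSucc, ord_inv, ord_pow, Int.negSucc_eq]; push_cast; ring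

theorem ord_prod {α : Type} (s : Finset α) (f : α → K) (hf : ∀ i ∈ s, f i ≠ 0) :
    O.ord (∏ i ∈ s, f i) = ∑ i ∈ s, O.ord (f i) := by
  classical
  induction s using Finset.induction_on with
  | empty => simp
  | insert a s ha ih =>
    rw [Finset.prod_insert ha, Finset.sum_insert ha, O.ord_mul _ _ (hf a (by simp)) ?_, ih ?_]
    · intro i hi; exact hf i (by simp [hi])
    · exact Finset.prod_ne_zero_iff.2 fun i hi => hf i (by simp [hi])

/-- Nonnegativity of the order is preserved by sums and products. -/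
theorem mem_ring {x : K} : x ∈ O.ring ↔ 0 ≤ O.ord x := Iff.rfl

theorem ord_add_ge {a b : K} {n : ℤ} (ha : a = 0 ∨ n ≤ O.ord a) (hb : b = 0 ∨ n ≤ O.ord b) :
    a + b = 0 ∨ n ≤ O.ord (a + b) := by
  by_cases h0 : a = 0
  · simpa [h0] using hb
  by_cases h1 : b = 0
  · simpa [h1] using ha
  by_cases h2 : a + b = 0
  · exact Or.inl h2
  right
  have h3 := O.ord_add a b h0 h1 h2
  have h4 : n ≤ O.ord a := ha.resolve_left h0
  have h5 : n ≤ O.ord b := hb.resolve_left h1
  exact le_trans (le_min h4 h5) h3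

/-- A strict ultrametric inequality: if `ord a < ord b` (or `b = 0`) then `ord (a + b) = ord a`. -/
theorem ord_add_eq {a b : K} (ha : a ≠ 0) (hb : b = 0 ∨ O.ord a < O.ord b) :
    O.ord (a + b) = O.ord a ∧ a + b ≠ 0 := by
  by_cases h1 : b = 0
  · simp [h1, ha]
  have hlt : O.ord a < O.ord b := hb.resolve_left h1
  have hne : a + b ≠ 0 := by
    intro h
    have : b = -a := by linear_combination h
    rw [this, ord_neg] at hlt
    exact lt_irrefl _ hlt
  refine ⟨le_antisymm ?_ ?_, hne⟩
  · by_contra hcon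
    push Not at hcon
    have h3 := O.ord_add (a + b) (-b) hne (by simpa using h1) (by simpa using ha)
    rw [ord_neg] at h3
    have h4 : a + b + -b = a := by ring
    rw [h4] at h3
    have := lt_of_lt_of_le (lt_min hcon hlt) h3
    exact lt_irrefl _ this
  · have h3 := O.ord_add a b ha h1 hne
    rwa [min_eq_left hlt.le] at h3

/-- The ring of a discrete valuation as a valuation subring of `K`. -/
def toVal : ValuationSubring K where
  toSubring := O.ring.toSubring
  mem_or_inv_mem' := by
    intro x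
    have h1 : O.ord x⁻¹ = - O.ord x := O.ord_inv x
    by_cases h : 0 ≤ O.ord x
    · exact Or.inl h
    · right
      change 0 ≤ O.ord x⁻¹
      omega

theorem mem_toVal {x : K} : x ∈ O.toVal ↔ 0 ≤ O.ord x := Iff.rfl

/-- A discrete valuation is determined by its ring. -/
theorem ext_ring {O O' : DVal K} (h : ∀ x, 0 ≤ O.ord x → 0 ≤ O'.ord x) : O = O' := by
  obtain ⟨t, ht⟩ := O.exists_ord_one
  obtain ⟨t', ht'⟩ := O'.exists_ord_one
  have ht0 : t ≠ 0 := by rintro rfl; simp at ht
  have ht0' : t' ≠ 0 := by rintro rfl; simp at ht'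
  -- units go to units
  have hu : ∀ x, x ≠ 0 → O.ord x = 0 → O'.ord x = 0 := by
    intro x hx h0
    have h1 := h x (by omega)
    have h2 := h x⁻¹ (by rw [ord_inv]; omega)
    rw [ord_inv] at h2
    omega
  have hmain : ∀ x, x ≠ 0 → O'.ord x = O.ord x * O'.ord t := by
    intro x hx
    have h1 : O.ord (x * t ^ (-(O.ord x))) = 0 := by
      rw [O.ord_mul _ _ hx (zpow_ne_zero _ ht0), ord_zpow, ht]; ring
    have h2 := hu _ (mul_ne_zero hx (zpow_ne_zero _ ht0)) h1
    rw [O'.ord_mul _ _ hx (zpow_ne_zero _ ht0), ord_zpow] at h2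
    linarith
  have hpos : 0 ≤ O'.ord t := h t (by omega)
  have h1 : O'.ord t = 1 := by
    have h3 := hmain t' ht0'
    rw [ht'] at h3
    have h4 : O'.ord t ∣ 1 := ⟨O.ord t', by rw [mul_comm]; exact h3⟩
    exact Int.eq_one_of_dvd_one hpos h4
  have h5 : O.ord = O'.ord := by
    funext x
    by_cases hx : x = 0
    · simp [hx]
    · rw [hmain x hx, h1, mul_one]
  cases O; cases O'; cases h5; rfl

theorem map_ord (σ : K ≃ₐ[ℂ] K) (y : K) : (O.map σ).ord y = O.ord (σ.symm y) := rfl

end DVal

theorem ordR_add (O : DVal K) (f g : Kˣ →₀ ℝ) : ordR O (f + g) = ordR O f + ordR O g := by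
  classical
  unfold ordR
  rw [Finsupp.sum_add_index'] <;> intros <;> ring

theorem ordR_smul (O : DVal K) (c : ℝ) (f : Kˣ →₀ ℝ) : ordR O (c • f) = c * ordR O f := by
  classical
  unfold ordR
  rw [Finsupp.sum_smul_index' (by intro; ring), Finsupp.mul_sum]
  simp [mul_assoc]

theorem ordR_neg (O : DVal K) (f : Kˣ →₀ ℝ) : ordR O (-f) = - ordR O f := by
  have := ordR_smul O (-1) f
  simpa using this

theorem ordR_sub (O : DVal K) (f g : Kˣ →₀ ℝ) : ordR O (f - g) = ordR O f - ordR O g := by
  rw [sub_eq_add_neg, ordR_add, ordR_neg]; ring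

theorem ordR_single (O : DVal K) (u : Kˣ) (r : ℝ) :
    ordR O (Finsupp.single u r) = r * (O.ord u : ℝ) := by
  unfold ordR
  rw [Finsupp.sum_single_index]; ring

@[simp] theorem ordR_zero (O : DVal K) : ordR O 0 = 0 := by simp [ordR]

theorem ordR_sum (O : DVal K) {α : Type} (s : Finset α) (f : α → (Kˣ →₀ ℝ)) :
    ordR O (∑ i ∈ s, f i) = ∑ i ∈ s, ordR O (f i) := by
  classical
  induction s using Finset.induction_on with
  | empty => simp
  | insert a s ha ih => rw [Finset.sum_insert ha, Finset.sum_insert ha, ordR_add, ih]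

end Pool.Agent.LibGMM
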