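import Pool.Agent.LibGMM.G7

/-! TASK G8 (uses G7, G5): discrepancies do not decrease when `K + Δ` becomes semiample. -/

namespace Pool.Agent.LibGMM

variable {K : Type} [Field K] [Algebra ℂ K]

theorem sys_add_ord_nonneg (Q : DVal K) (G : Finset Kˣ) (g : Kˣ) (hg : g ∈ G) :
    0 ≤ sys Q G + Q.ord g := by
  unfold sys
  have h1 : (⨅ h : {h // h ∈ G}, (Q.ord (h : Kˣ) : ℝ)) ≤ (Q.ord (g : Kˣ) : ℝ) :=
    ciInf_le (Set.finite_range _).bddBelow (⟨g, hg⟩ : {h // h ∈ G})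
  linarith

theorem sys_eq (Q : DVal K) (G : Finset Kˣ) (g : Kˣ) (hg : g ∈ G)
    (h : ∀ g' ∈ G, 0 ≤ Q.ord ((g' : K) / g)) : sys Q G = - Q.ord g := by
  have h1 : sys Q G ≤ - Q.ord g := by
    unfold sys
    rw [neg_le_neg_iff]
    haveI : Nonempty {h // h ∈ G} := ⟨⟨g, hg⟩⟩
    apply le_ciInf
    rintro ⟨g', hg'⟩
    have h2 := h g' hg'
    rw [Q.ord_div g'.ne_zero g.ne_zero] at h2
    have h3 : Q.ord (g : K) ≤ Q.ord (g' : K) := by omega
    exact_mod_cast h3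
  have h2 := sys_add_ord_nonneg Q G g hg
  linarith

/-- the local equation of the semiample divisor -/
private theorem ordR_loc (Q : DVal K) (N : ℕ) (c : Fin N → ℝ) (f : Kˣ →₀ ℝ) (g : Fin N → Kˣ) :
    ordR Q (f - ∑ k, Finsupp.single (g k) (c k)) =
      ordR Q f - ∑ k, c k * (Q.ord (g k) : ℝ) := by
  rw [ordR_sub, ordR_sum]
  congr 1
  apply Finset.sum_congr rfl
  intro k _
  rw [ordR_single]

/-- Let `W` be a birational contraction of `X` such that `K + Δ` is semiample on `W`, the sum of the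
semiample part `∑ c k * sys · (G k)` and the divisor of `f`, and is at least that at the prime
divisors of `X`. Then `(W, Δ_W)` is klt, and `∑ c k * sys O (G k) + ord_O f` is the order of
`K_W + Δ_W` along `O`. (Use the local equation `f - ∑ c k • single (g k)` on `W`, `g k ∈ G k` a
generator at the centre of `O` on `W`, compare with a local equation on `X` by `ordR_nonneg`.) -/
theorem klt_of_semiample (X W : NormalModel K) (ω : TopForm K) (Δ : DVal K → ℝ)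
    (hX : IsKlt X ω Δ) (hsub : ∀ Q, W.IsPrimeDiv Q → X.IsPrimeDiv Q) (N : ℕ) (c : Fin N → ℝ)
    (G : Fin N → Finset Kˣ) (f : Kˣ →₀ ℝ) (hc : ∀ k, 0 ≤ c k) (hG : ∀ k, W.BPF (G k))
    (hW : ∀ Q, W.IsPrimeDiv Q → lcDiv ω Δ Q = ∑ k, c k * sys Q (G k) + ordR Q f)
    (hXW : ∀ Q, X.IsPrimeDiv Q → ∑ k, c k * sys Q (G k) + ordR Q f ≤ lcDiv ω Δ Q) :
    IsKlt W ω Δ ∧ ∀ (O : DVal K) (p : W.Pt) (f' : Kˣ →₀ ℝ), W.IsCentre O p →
      W.LocEq (lcDiv ω Δ) p f' → ordR O f' = ∑ k, c k * sys O (G k) + ordR O f := by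
  -- local equation at `p`
  have hloc : ∀ p : W.Pt, ∃ g : Fin N → Kˣ, (∀ k, g k ∈ G k) ∧
      (∀ k, ∀ g' ∈ G k, ((g' : K) / g k) ∈ W.loc p) ∧
      W.LocEq (lcDiv ω Δ) p (f - ∑ k, Finsupp.single (g k) (c k)) := by
    intro p
    choose g hg1 hg2 using fun k => hG k p
    refine ⟨g, hg1, hg2, ?_⟩
    intro Q hQ hQp
    rw [ordR_loc, hW Q hQ]
    have h1 : ∀ k, c k * sys Q (G k) = -(c k * (Q.ord (g k) : ℝ)) := by
      intro k
      rw [sys_eq Q (G k) (g k) (hg1 k) (fun g' hg' => hQp _ (hg2 k g' hg'))]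
      ring
    rw [Finset.sum_congr rfl (fun k _ => h1 k), Finset.sum_neg_distrib]
    ring
  have hsysO : ∀ (O : DVal K) (p : W.Pt) (g : Fin N → Kˣ), W.IsCentre O p →
      (∀ k, g k ∈ G k) → (∀ k, ∀ g' ∈ G k, ((g' : K) / g k) ∈ W.loc p) →
      ∑ k, c k * sys O (G k) = - ∑ k, c k * (O.ord (g k) : ℝ) := by
    intro O p g hO hg1 hg2
    rw [← Finset.sum_neg_distrib]
    apply Finset.sum_congr rfl
    intro k _
    rw [sys_eq O (G k) (g k) (hg1 k)
      (fun g' hg' => W.loc_le_of_isCentre O p hO _ (hg2 k g' hg'))]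
    ring
  have hsecond : ∀ (O : DVal K) (p : W.Pt) (f' : Kˣ →₀ ℝ), W.IsCentre O p →
      W.LocEq (lcDiv ω Δ) p f' → ordR O f' = ∑ k, c k * sys O (G k) + ordR O f := by
    intro O p f' hO hf'
    obtain ⟨g, hg1, hg2, hg3⟩ := hloc p
    rw [W.ordR_unique p (lcDiv ω Δ) f' _ hf' hg3 O hO, ordR_loc, hsysO O p g hO hg1 hg2]
    ring
  refine ⟨⟨?_, ?_, ?_, ?_⟩, hsecond⟩
  · intro Q hQ
    exact hX.nonneg Q (hsub Q hQ)
  · refine hX.finite.subset ?_
    rintro Q ⟨h1, h2⟩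
    exact ⟨hsub Q h1, h2⟩
  · intro p
    obtain ⟨g, _, _, hg3⟩ := hloc p
    exact ⟨_, hg3⟩
  · intro O p f' hdiv hO hf'
    rw [hsecond O p f' hO hf']
    obtain ⟨g, hg1, hg2, hg3⟩ := hloc p
    obtain ⟨p', hp'⟩ := X.exists_centre O
    obtain ⟨f'', hf''⟩ := hX.cartier p'
    have h1 := hX.klt O p' f'' hdiv hp' hf''
    have h2 : 0 ≤ ordR O (f'' - (f - ∑ k, Finsupp.single (g k) (c k))) := by
      apply X.ordR_nonneg p' _ ?_ O hp'
      intro Q hQ hQp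
      rw [ordR_sub, ordR_loc, ← hf'' Q hQ hQp]
      have h3 := hXW Q hQ
      have h4 : 0 ≤ ∑ k, c k * (sys Q (G k) + (Q.ord (g k) : ℝ)) :=
        Finset.sum_nonneg (fun k _ => mul_nonneg (hc k)
          (sys_add_ord_nonneg Q (G k) (g k) (hg1 k)))
      have h5 : ∑ k, c k * (sys Q (G k) + (Q.ord (g k) : ℝ)) =
          ∑ k, c k * sys Q (G k) + ∑ k, c k * (Q.ord (g k) : ℝ) := by
        rw [← Finset.sum_add_distrib]
        apply Finset.sum_congr rfl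
        intro k _
        ring
      rw [h5] at h4
      linarith
    rw [ordR_sub, ordR_loc] at h2
    rw [hsysO O p g hO hg1 hg2]
    linarith

end Pool.Agent.LibGMM
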