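import Mathlib

/-! TASK G6. -/

namespace Pool.Agent.LibGMM

/-- Every point of `ℝ ^ m` is a positive combination of rational points arbitrarily near to it. -/
private theorem g6_approx {L : Type} [Fintype L] (θ : L → ℝ) (U : Set (L → ℝ))
    (hU : U ∈ nhds θ) :
    ∃ (ι : Type) (_ : Fintype ι) (w : ι → ℝ) (z : ι → L → ℚ), (∀ i, 0 < w i) ∧
      (∀ i, (fun l => (z i l : ℝ)) ∈ U) ∧ ∀ l, θ l = ∑ i, w i * (z i l : ℝ) := by
  classical
  obtain ⟨δ, hδ, hball⟩ := Metric.mem_nhds_iff.mp hU
  have hp : ∀ l, ∃ p : ℚ, θ l - δ < p ∧ (p : ℝ) < θ l := fun l => exists_rat_btwn (by linarith)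
  have hq : ∀ l, ∃ q : ℚ, θ l < q ∧ (q : ℝ) < θ l + δ := fun l => exists_rat_btwn (by linarith)
  choose p hp1 hp2 using hp
  choose q hq1 hq2 using hq
  have h1 : θ ∈ convexHull ℝ (Set.univ.pi fun l => ({(p l : ℝ), (q l : ℝ)} : Set ℝ)) := by
    rw [convexHull_pi]
    intro l _
    change θ l ∈ convexHull ℝ {(p l : ℝ), (q l : ℝ)}
    rw [convexHull_pair, segment_eq_Icc (by linarith [hp2 l, hq1 l])]
    exact ⟨(hp2 l).le, (hq1 l).le⟩
  rw [mem_convexHull_iff_exists_fintype] at h1
  obtain ⟨ι, hι, w, z, hw0, _, hz, hsum⟩ := h1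
  have hz' : ∀ i l, ∃ r : ℚ, (r : ℝ) = z i l ∧ (r = p l ∨ r = q l) := by
    intro i l
    have h2 := hz i l (Set.mem_univ l)
    rcases h2 with h2 | h2
    · exact ⟨p l, h2.symm, Or.inl rfl⟩
    · exact ⟨q l, h2.symm, Or.inr rfl⟩
  choose z' hz1 hz2 using hz'
  refine ⟨{i // 0 < w i}, inferInstance, fun i => w i, fun i => z' i, fun i => i.2, ?_, ?_⟩
  · intro i
    apply hball
    rw [Metric.mem_ball, dist_pi_lt_iff hδ]
    intro l
    rw [Real.dist_eq, abs_lt]
    change -δ < (z' i l : ℝ) - θ l ∧ (z' i l : ℝ) - θ l < δ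
    rcases hz2 i l with h2 | h2
    · rw [h2]
      constructor
      · linarith [hp1 l]
      · linarith [hp2 l]
    · rw [h2]
      constructor
      · linarith [hq1 l]
      · linarith [hq2 l]
  · intro l
    have h2 : θ l = ∑ i, w i * z i l := by
      rw [← hsum]
      simp [Finset.sum_apply]
    rw [h2]
    have h3 : ∑ i, w i * z i l = ∑ i ∈ Finset.univ.filter (fun i => 0 < w i), w i * z i l := by
      symm
      apply Finset.sum_subset (Finset.filter_subset _ _)
      intro i _ hi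
      simp only [Finset.mem_filter, Finset.mem_univ, true_and] at hi
      have : w i = 0 := le_antisymm (not_lt.mp hi) (hw0 i)
      rw [this, zero_mul]
    rw [h3, Finset.sum_subtype (Finset.univ.filter (fun i => 0 < w i)) (p := fun i => 0 < w i)
      (by simp)]
    exact Finset.sum_congr rfl fun i _ => by rw [hz1]

/-- A real solution of a homogeneous system of linear inequalities with integer coefficients (finitely
many distinct ones) is a positive real combination of integral solutions. (Write `x = ∑ θ_l y_l` with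
`θ_l` real and linearly independent over `ℚ` and `y_l` rational; inequalities which vanish at `x`
vanish at all `y_l`; move `θ` to the vertices of a small rational cube or simplex around it.) -/
theorem rational_decomp {I κ : Type} [Fintype κ] (M : I → κ → ℤ) (hM : (Set.range M).Finite)
    (x : κ → ℝ) (hx : ∀ i, 0 ≤ ∑ k, (M i k : ℝ) * x k) :
    ∃ (N : ℕ) (c : Fin N → ℝ) (y : Fin N → κ → ℤ), (∀ n, 0 < c n) ∧
      (∀ n i, 0 ≤ ∑ k, M i k * y n k) ∧ ∀ k, x k = ∑ n, c n * (y n k : ℝ) := by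
  classical
  -- a rational basis of the span of the coordinates
  set V : Submodule ℚ ℝ := Submodule.span ℚ (Set.range x) with hV
  haveI : FiniteDimensional ℚ V := FiniteDimensional.span_of_finite ℚ (Set.finite_range x)
  set b := Module.finBasis ℚ V with hb
  have hxV : ∀ k, x k ∈ V := fun k => Submodule.subset_span ⟨k, rfl⟩
  set y : Fin (Module.finrank ℚ V) → κ → ℚ := fun l k => b.repr ⟨x k, hxV k⟩ l with hy
  set θ : Fin (Module.finrank ℚ V) → ℝ := fun l => (b l : ℝ) with hθ
  have hxy : ∀ k, x k = ∑ l, (y l k : ℝ) * θ l := by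
    intro k
    have h1 := b.sum_repr ⟨x k, hxV k⟩
    have h2 := congrArg (fun v : V => (v : ℝ)) h1
    simp only [Submodule.coe_sum, Submodule.coe_smul] at h2
    rw [← h2]
    exact Finset.sum_congr rfl fun l _ => by rw [Rat.smul_def]
  -- the values of the functionals
  have hval : ∀ (μ : κ → ℤ) , ∑ k, (μ k : ℝ) * x k =
      ∑ l, ((∑ k, (μ k : ℚ) * y l k : ℚ) : ℝ) * θ l := by
    intro μ
    simp_rw [hxy]
    push_cast
    simp_rw [Finset.mul_sum, Finset.sum_mul]
    rw [Finset.sum_comm]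
    exact Finset.sum_congr rfl fun l _ => Finset.sum_congr rfl fun k _ => by ring
  have hzero : ∀ (μ : κ → ℤ), ∑ k, (μ k : ℝ) * x k = 0 → ∀ l, ∑ k, (μ k : ℚ) * y l k = 0 := by
    intro μ hμ
    rw [hval] at hμ
    have h1 : ∑ l, (∑ k, (μ k : ℚ) * y l k) • b l = 0 := by
      apply Subtype.ext
      simp only [Submodule.coe_sum, Submodule.coe_smul, Submodule.coe_zero]
      rw [← hμ]
      exact Finset.sum_congr rfl fun l _ => by rw [Rat.smul_def]
    exact fun l => (Fintype.linearIndependent_iff.mp b.linearIndependent) _ h1 l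
  -- the neighbourhood
  set U : Set (Fin (Module.finrank ℚ V) → ℝ) :=
    {t | ∀ μ ∈ Set.range M, 0 ≤ ∑ l, ((∑ k, (μ k : ℚ) * y l k : ℚ) : ℝ) * t l} with hU
  have hUn : U ∈ nhds θ := by
    change ∀ᶠ t in nhds θ, ∀ μ ∈ Set.range M,
      0 ≤ ∑ l, ((∑ k, (μ k : ℚ) * y l k : ℚ) : ℝ) * t l
    rw [Filter.eventually_all_finite hM]
    rintro _ ⟨i, rfl⟩
    rcases (hx i).eq_or_lt with h1 | h1
    · have h2 := hzero (M i) h1.symm
      refine Filter.Eventually.of_forall fun t => ?_
      simp [h2]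
    · rw [hval] at h1
      have hc : Continuous fun t : Fin (Module.finrank ℚ V) → ℝ =>
          ∑ l, ((∑ k, (M i k : ℚ) * y l k : ℚ) : ℝ) * t l := by fun_prop
      have h2 := (hc.tendsto θ).eventually (lt_mem_nhds h1)
      filter_upwards [h2] with t ht
      exact ht.le
  obtain ⟨ι, hι, w, z, hw, hzU, hθz⟩ := g6_approx θ U hUn
  -- clear denominators
  set Y : ι → κ → ℚ := fun i k => ∑ l, z i l * y l k with hY
  set D : ι → ℕ := fun i => ∏ k, (Y i k).den with hD
  have hDpos : ∀ i, 0 < D i := fun i => Finset.prod_pos fun k _ => (Y i k).den_pos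
  have hint : ∀ i k, ∃ n : ℤ, (n : ℚ) = Y i k * D i := by
    intro i k
    have h1 : (Y i k).den ∣ D i := Finset.dvd_prod_of_mem _ (Finset.mem_univ k)
    obtain ⟨e, he⟩ := h1
    refine ⟨(Y i k).num * e, ?_⟩
    rw [he]
    push_cast
    have h2 : Y i k * ((Y i k).den : ℚ) = (Y i k).num := Rat.mul_den_eq_num _
    rw [← mul_assoc, h2]
  choose n hn using hint
  set e := Fintype.equivFin ι with he
  refine ⟨Fintype.card ι, fun j => w (e.symm j) / D (e.symm j), fun j => n (e.symm j), ?_, ?_, ?_⟩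
  · intro j
    exact div_pos (hw _) (by exact_mod_cast hDpos _)
  · intro j i
    have h1 := hzU (e.symm j) (M i) ⟨i, rfl⟩
    have h2 : (0 : ℚ) ≤ ∑ l, (∑ k, (M i k : ℚ) * y l k) * z (e.symm j) l := by
      simp only at h1
      exact_mod_cast h1
    have h3 : ((∑ k, M i k * n (e.symm j) k : ℤ) : ℚ) =
        D (e.symm j) * ∑ l, (∑ k, (M i k : ℚ) * y l k) * z (e.symm j) l := by
      push_cast
      simp_rw [hn, hY, Finset.sum_mul, Finset.mul_sum]
      rw [Finset.sum_comm]
      exact Finset.sum_congr rfl fun l _ => Finset.sum_congr rfl fun k _ => by ring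
    have h4 : (0 : ℚ) ≤ ((∑ k, M i k * n (e.symm j) k : ℤ) : ℚ) := by
      rw [h3]
      exact mul_nonneg (by positivity) h2
    exact_mod_cast h4
  · intro k
    rw [Equiv.sum_comp e.symm (fun i => w i / D i * (n i k : ℝ)), hxy]
    simp_rw [hθz, Finset.mul_sum]
    rw [Finset.sum_comm]
    refine Finset.sum_congr rfl fun i _ => ?_
    have h1 : ((n i k : ℤ) : ℝ) = (Y i k : ℝ) * (D i : ℝ) := by
      exact_mod_cast congrArg (fun q : ℚ => (q : ℝ)) (hn i k)
    have h2 : (D i : ℝ) ≠ 0 := by exact_mod_cast (hDpos i).ne'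
    rw [h1, hY]
    push_cast
    rw [show w i / (D i : ℝ) * ((∑ l, (z i l : ℝ) * (y l k : ℝ)) * (D i : ℝ)) =
      w i * ∑ l, (z i l : ℝ) * (y l k : ℝ) by field_simp, Finset.mul_sum]
    exact Finset.sum_congr rfl fun l _ => by ring

end Pool.Agent.LibGMM
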