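import Pool.Agent.LibGMM.Defs

/-!
Normal hypersurfaces of products of projective spaces.
-/

open scoped KaehlerDifferential

namespace Pool.Agent.LibGMM

/-- The polynomial `F` in the groups of variables `(j, 0), ..., (j, m j)`, `j : J`, is homogeneous of
degree `d j` in the `j`-th group, for every `j`. -/
def MultiHom {J : Type} {m : J → ℕ} (F : MvPolynomial (Σ j, Fin (m j + 1)) ℂ) (d : J → ℕ) : Prop :=
  ∀ c ∈ F.support, ∀ j, ∑ s, c ⟨j, s⟩ = d j

/-- The homogeneous coordinates of the Segre embedding of a product of projective spaces. -/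
noncomputable def segre {K : Type} [Field K] {J : Type} [Fintype J] {m : J → ℕ}
    (x : (j : J) → Fin (m j + 1) → Kˣ) (s : (j : J) → Fin (m j + 1)) : Kˣ :=
  ∏ j, x j (s j)

/-- A normal hypersurface `X` of multidegree `d` in the product of the projective spaces of dimension
`m j`, `j : J`, with function field `K`: the homogeneous coordinates of its generic point are `x`, and
the (multihomogeneous) equations of `X` are the multiples of `F`, which has multidegree `d`. -/
structure Hypersurface (K : Type) [Field K] [Algebra ℂ K] {J : Type} [Fintype J] (m d : J → ℕ) where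
  x : (j : J) → Fin (m j + 1) → Kˣ
  F : MvPolynomial (Σ j, Fin (m j + 1)) ℂ
  F_ne : F ≠ 0
  homog : MultiHom F d
  vanish : MvPolynomial.aeval (fun v : Σ j, Fin (m j + 1) => (x v.1 v.2 : K)) F = 0
  minimal : ∀ (G : MvPolynomial (Σ j, Fin (m j + 1)) ℂ) (e : J → ℕ), MultiHom G e →
    MvPolynomial.aeval (fun v : Σ j, Fin (m j + 1) => (x v.1 v.2 : K)) G = 0 → F ∣ G
  frac : ∀ (s : (j : J) → Fin (m j + 1)) (y : K),
    ∃ a ∈ chart (segre x) s, ∃ b ∈ chart (segre x) s, b ≠ 0 ∧ y = a / b
  normal : ∀ (s : (j : J) → Fin (m j + 1)) (y : K),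
    IsIntegral (chart (segre x) s) y → y ∈ chart (segre x) s

section

variable {K : Type} [Field K] [Algebra ℂ K] {J : Type} [Fintype J] {m d : J → ℕ}

/-- The hypersurface as a normal projective variety, in its Segre embedding. -/
noncomputable def Hypersurface.model (H : Hypersurface K m d) : NormalModel K where
  ι := (j : J) → Fin (m j + 1)
  fin := by classical infer_instance
  ne := ⟨fun _ => 0⟩
  g := segre H.x
  frac := H.frac
  normal := H.normal

/-- The pull-back to `X` of the hyperplane class of the `j`-th projective space. -/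
noncomputable def Hypersurface.hyp (H : Hypersurface K m d) (j : J) (Q : DVal K) : ℝ :=
  - ⨅ s : Fin (m j + 1), (Q.ord (H.x j s) : ℝ)

/-- The coordinate ring of the `s`-th affine chart of the product of the projective spaces other than
the `i`-th one, as a subring of `K`. -/
def Hypersurface.projChart (H : Hypersurface K m d) (i : J) (s : (j : J) → Fin (m j + 1)) :
    Subalgebra ℂ K :=
  Algebra.adjoin ℂ {y | ∃ j, j ≠ i ∧ ∃ r, y = (H.x j r : K) / H.x j (s j)}

/-- The projection of `X` to the product of the projective spaces other than the `i`-th one contracts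
no divisor: for every prime divisor `Q` of `X`, the local ring `{a / b | a, b ∈ A, ord_Q b = 0}` of
this product at the image of `Q` (`A` the coordinate ring of a chart) is the valuation ring of the
restriction of `Q` to its function field. -/
def Hypersurface.NoContraction (H : Hypersurface K m d) (i : J) : Prop :=
  ∀ Q, H.model.IsPrimeDiv Q → ∃ s : (j : J) → Fin (m j + 1),
    (∀ a ∈ H.projChart i s, 0 ≤ Q.ord a) ∧
    ∀ a ∈ H.projChart i s, ∀ b ∈ H.projChart i s, b ≠ 0 → 0 ≤ Q.ord (a / b) →
      ∃ a' ∈ H.projChart i s, ∃ b' ∈ H.projChart i s, b' ≠ 0 ∧ Q.ord b' = 0 ∧ a / b = a' / b'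

end

section

variable {K : Type} [Field K] [Algebra ℂ K]

/-- The discrete valuation `ord (σ⁻¹ ·)`. -/
def DVal.map (σ : K ≃ₐ[ℂ] K) (O : DVal K) : DVal K where
  ord y := O.ord (σ.symm y)
  ord_zero := by simp [O.ord_zero]
  ord_mul a b ha hb := by
    rw [map_mul]; exact O.ord_mul _ _ (by simpa using ha) (by simpa using hb)
  ord_add a b ha hb hab := by
    have h2 : σ.symm a + σ.symm b ≠ 0 := by
      rw [← map_add]
      exact (map_ne_zero _).mpr hab
    rw [map_add]
    exact O.ord_add _ _ (by simpa using ha) (by simpa using hb) h2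
  ord_const c := by simp [O.ord_const]
  exists_ord_one := by
    obtain ⟨t, ht⟩ := O.exists_ord_one
    exact ⟨σ t, by simpa using ht⟩

theorem chart_map {ι : Type} (σ : K ≃ₐ[ℂ] K) (g : ι → Kˣ) (i : ι) :
    chart (fun j => Units.map (σ : K →* K) (g j)) i = (chart g i).map (σ : K →ₐ[ℂ] K) := by
  unfold chart
  rw [AlgHom.map_adjoin]
  congr 1
  ext y
  simp [Set.mem_range]

/-- The image of `X` under the automorphism `σ` of the function field: the same projective variety
(with coordinates `σ (g i)`), with a different identification of its function field with `K`. -/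
def NormalModel.map (σ : K ≃ₐ[ℂ] K) (X : NormalModel K) : NormalModel K where
  ι := X.ι
  fin := X.fin
  ne := X.ne
  g := fun i => Units.map (σ : K →* K) (X.g i)
  frac := by
    intro i y
    obtain ⟨a, ha, b, hb, hb0, hab⟩ := X.frac i (σ.symm y)
    rw [chart_map]
    refine ⟨σ a, ⟨a, ha, rfl⟩, σ b, ⟨b, hb, rfl⟩, by simpa using hb0, ?_⟩
    rw [← map_div₀, ← hab]; simp
  normal := by
    intro i y hy
    rw [chart_map] at hy ⊢
    refine ⟨σ.symm y, X.normal i _ ?_, by simp⟩
    let e : ((chart X.g i).map (σ : K →ₐ[ℂ] K)) →+* (chart X.g i) :=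
      ((σ.symm : K →ₐ[ℂ] K).comp ((chart X.g i).map (σ : K →ₐ[ℂ] K)).val).codRestrict (chart X.g i)
        (by
          rintro ⟨_, ⟨z, hz, rfl⟩⟩
          simpa using hz)
    exact hy.map_of_comp_eq e (σ.symm : K →+* K) (by ext; rfl)

end

end Pool.Agent.LibGMM
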