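import Pool.Agent.LibGMM.Api

/-! The charts of a hypersurface: generators and relations. -/

open scoped KaehlerDifferential

namespace Pool.Agent.LibGMM

variable {K : Type} [Field K] [Algebra ℂ K] {J : Type} [Fintype J] {m d : J → ℕ}

/-- The affine coordinates of the chart `s`. -/
noncomputable def Hypersurface.aff (H : Hypersurface K m d) (s : (j : J) → Fin (m j + 1))
    (v : Σ j, Fin (m j + 1)) : K :=
  (H.x v.1 v.2 : K) / H.x v.1 (s v.1)

variable (H : Hypersurface K m d) (s : (j : J) → Fin (m j + 1))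

theorem Hypersurface.aff_self (j : J) : H.aff s ⟨j, s j⟩ = 1 :=
  div_self (Units.ne_zero _)

theorem Hypersurface.aff_ne_zero (v : Σ j, Fin (m j + 1)) : H.aff s v ≠ 0 :=
  div_ne_zero (Units.ne_zero _) (Units.ne_zero _)

theorem Hypersurface.segre_div (t : (j : J) → Fin (m j + 1)) :
    (segre H.x t : K) / segre H.x s = ∏ j, H.aff s ⟨j, t j⟩ := by
  unfold segre Hypersurface.aff
  push_cast
  rw [Finset.prod_div_distrib]

theorem Hypersurface.chart_eq :
    chart (segre H.x) s = Algebra.adjoin ℂ (Set.range (H.aff s)) := by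
  classical
  apply le_antisymm
  · refine Algebra.adjoin_le ?_
    rintro _ ⟨t, rfl⟩
    simp only
    rw [H.segre_div s t]
    exact Subalgebra.prod_mem _ fun j _ => Algebra.subset_adjoin ⟨_, rfl⟩
  · refine Algebra.adjoin_le ?_
    rintro _ ⟨⟨j, r⟩, rfl⟩
    refine Algebra.subset_adjoin ⟨Function.update s j r, ?_⟩
    simp only
    rw [H.segre_div s, ← Finset.mul_prod_erase Finset.univ _ (Finset.mem_univ j)]
    rw [Function.update_self, Finset.prod_eq_one, mul_one]
    intro i hi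
    rw [Function.update_of_ne (Finset.ne_of_mem_erase hi)]
    exact H.aff_self s i

theorem Hypersurface.aff_mem (v : Σ j, Fin (m j + 1)) : H.aff s v ∈ chart (segre H.x) s := by
  rw [H.chart_eq s]
  exact Algebra.subset_adjoin ⟨v, rfl⟩

theorem Hypersurface.mem_chart_iff (y : K) :
    y ∈ chart (segre H.x) s ↔ ∃ g : MvPolynomial (Σ j, Fin (m j + 1)) ℂ,
      MvPolynomial.aeval (H.aff s) g = y := by
  rw [H.chart_eq s, Algebra.adjoin_range_eq_range_aeval]
  rfl

/-- The exponents of the homogenisation. -/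
noncomputable def homExp (s : (j : J) → Fin (m j + 1)) (e : ℕ) (c : (Σ j, Fin (m j + 1)) →₀ ℕ) :
    (Σ j, Fin (m j + 1)) →₀ ℕ :=
  c + ∑ j, Finsupp.single ⟨j, s j⟩ (e - ∑ r, c ⟨j, r⟩)

theorem homExp_apply (e : ℕ) (c : (Σ j, Fin (m j + 1)) →₀ ℕ) (j : J) (r : Fin (m j + 1)) :
    homExp s e c ⟨j, r⟩ = c ⟨j, r⟩ + if r = s j then e - ∑ r, c ⟨j, r⟩ else 0 := by
  classical
  unfold homExp
  rw [Finsupp.add_apply, Finsupp.finsetSum_apply]
  congr 1
  rw [Finset.sum_eq_single j]
  · rw [Finsupp.single_apply]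
    by_cases h : r = s j
    · subst h; simp
    · rw [if_neg, if_neg h]
      intro h'
      simp only [Sigma.mk.injEq, heq_eq_eq, true_and] at h'
      exact h h'.symm
  · intro i _ hi
    rw [Finsupp.single_apply, if_neg]
    intro h
    simp only [Sigma.mk.injEq] at h
    exact hi h.1
  · intro h; exact absurd (Finset.mem_univ _) h

theorem homExp_sum (e : ℕ) (c : (Σ j, Fin (m j + 1)) →₀ ℕ) (j : J)
    (hc : ∑ r, c ⟨j, r⟩ ≤ e) : ∑ r, homExp s e c ⟨j, r⟩ = e := by
  simp only [homExp_apply, Finset.sum_add_distrib, Finset.sum_ite_eq', Finset.mem_univ, if_true]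
  omega

theorem prod_sigma_pow {B : Type*} [CommRing B] (z : (Σ j, Fin (m j + 1)) → B)
    (c : (Σ j, Fin (m j + 1)) →₀ ℕ) :
    (c.prod fun v k => z v ^ k) = ∏ j, ∏ r, z ⟨j, r⟩ ^ c ⟨j, r⟩ := by
  rw [Finsupp.prod_fintype _ _ (by intro; simp), ← Finset.univ_sigma_univ, Finset.prod_sigma]

/-- Homogenisation of polynomials in the chart `s`. -/
theorem exists_homogenisation (g : MvPolynomial (Σ j, Fin (m j + 1)) ℂ) :
    ∃ (e : ℕ) (G : MvPolynomial (Σ j, Fin (m j + 1)) ℂ), MultiHom G (fun _ => e) ∧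
      (∀ (B : Type) [CommRing B] [Algebra ℂ B] (z : (Σ j, Fin (m j + 1)) → B),
        (∀ j, z ⟨j, s j⟩ = 1) → MvPolynomial.aeval z G = MvPolynomial.aeval z g) ∧
      MvPolynomial.aeval (fun v : Σ j, Fin (m j + 1) => (H.x v.1 v.2 : K)) G =
        (∏ j, (H.x j (s j) : K) ^ e) * MvPolynomial.aeval (H.aff s) g := by
  classical
  set e := g.totalDegree with he
  have hle : ∀ c ∈ g.support, ∀ j, ∑ r, c ⟨j, r⟩ ≤ e := by
    intro c hc j
    have h1 : c.sum (fun _ k => k) ≤ e := MvPolynomial.le_totalDegree hc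
    rw [Finsupp.sum_fintype _ _ (by intro; simp), ← Finset.univ_sigma_univ, Finset.sum_sigma] at h1
    refine le_trans ?_ h1
    exact Finset.single_le_sum (f := fun j => ∑ r, c ⟨j, r⟩) (fun _ _ => Nat.zero_le _)
      (Finset.mem_univ j)
  set G : MvPolynomial (Σ j, Fin (m j + 1)) ℂ :=
    ∑ c ∈ g.support, MvPolynomial.monomial (homExp s e c) (g.coeff c) with hG
  refine ⟨e, G, ?_, ?_, ?_⟩
  · intro c hc j
    have h1 := MvPolynomial.support_sum hc
    rw [Finset.mem_biUnion] at h1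
    obtain ⟨c', hc', h2⟩ := h1
    have h3 := MvPolynomial.support_monomial_subset h2
    rw [Finset.mem_singleton] at h3
    rw [h3]
    exact homExp_sum s e c' j (hle c' hc' j)
  · intro B _ _ z hz
    rw [hG, map_sum]
    conv_rhs => rw [g.as_sum, map_sum]
    refine Finset.sum_congr rfl fun c hc => ?_
    rw [MvPolynomial.aeval_monomial, MvPolynomial.aeval_monomial, prod_sigma_pow, prod_sigma_pow]
    congr 1
    refine Finset.prod_congr rfl fun j _ => Finset.prod_congr rfl fun r _ => ?_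
    rw [homExp_apply, pow_add]
    by_cases h : r = s j
    · subst h; rw [hz j]; simp
    · rw [if_neg h]; simp
  · rw [hG, map_sum]
    conv_rhs => rw [g.as_sum, map_sum, Finset.mul_sum]
    refine Finset.sum_congr rfl fun c hc => ?_
    rw [MvPolynomial.aeval_monomial, MvPolynomial.aeval_monomial, prod_sigma_pow, prod_sigma_pow,
      mul_left_comm, ← Finset.prod_mul_distrib]
    congr 1
    refine Finset.prod_congr rfl fun j _ => ?_
    have h1 : ∏ r, (H.x j r : K) ^ (homExp s e c ⟨j, r⟩) =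
        (∏ r, (H.x j r : K) ^ c ⟨j, r⟩) * (H.x j (s j) : K) ^ (e - ∑ r, c ⟨j, r⟩) := by
      simp only [homExp_apply, pow_add, Finset.prod_mul_distrib]
      congr 1
      rw [Finset.prod_eq_single (s j)]
      · simp
      · intro r _ hr; rw [if_neg hr, pow_zero]
      · intro h; exact absurd (Finset.mem_univ _) h
    rw [h1]
    have h2 : ∏ r, H.aff s ⟨j, r⟩ ^ c ⟨j, r⟩ =
        (∏ r, (H.x j r : K) ^ c ⟨j, r⟩) / (H.x j (s j) : K) ^ (∑ r, c ⟨j, r⟩) := by
      simp only [Hypersurface.aff, div_pow, Finset.prod_div_distrib, Finset.prod_pow_eq_pow_sum]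
    rw [h2]
    have h3 : (H.x j (s j) : K) ^ e =
        (H.x j (s j) : K) ^ (e - ∑ r, c ⟨j, r⟩) * (H.x j (s j) : K) ^ (∑ r, c ⟨j, r⟩) := by
      rw [← pow_add]; congr 1; have := hle c hc j; omega
    rw [h3]
    have h4 : (H.x j (s j) : K) ^ (∑ r, c ⟨j, r⟩) ≠ 0 := pow_ne_zero _ (Units.ne_zero _)
    field_simp

/-- The relations between the affine coordinates are consequences of `F`. -/
theorem Hypersurface.relations (g : MvPolynomial (Σ j, Fin (m j + 1)) ℂ)
    (hg : MvPolynomial.aeval (H.aff s) g = 0)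
    (B : Type) [CommRing B] [Algebra ℂ B] (z : (Σ j, Fin (m j + 1)) → B)
    (hz : ∀ j, z ⟨j, s j⟩ = 1) (hF : MvPolynomial.aeval z H.F = 0) :
    MvPolynomial.aeval z g = 0 := by
  obtain ⟨e, G, hG, h1, h2⟩ := exists_homogenisation H s g
  rw [hg, mul_zero] at h2
  obtain ⟨Q, hQ⟩ := H.minimal G _ hG h2
  rw [← h1 B z hz, hQ, map_mul, hF, zero_mul]

end Pool.Agent.LibGMM
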