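import Pool.Agent.LibGMM.CanRel

/-! The residue field of a discrete valuation: transcendence degree and derivations. -/

open scoped KaehlerDifferential

namespace Pool.Agent.LibGMM

variable {K : Type} [Field K] [Algebra ℂ K]

theorem DVal.exists_residue (O : DVal K) : ∃ (κ : Type) (_ : Field κ) (_ : Algebra ℂ κ)
    (ρ : O.ring →ₐ[ℂ] κ), Function.Surjective ρ ∧
      ∀ x : O.ring, ρ x = 0 ↔ ((x : K) = 0 ∨ 0 < O.ord x) := by
  let I : Ideal O.ring :=
    { carrier := {x | (x : K) = 0 ∨ 0 < O.ord x}
      add_mem' := by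
        intro a b ha hb
        have h := O.ord_add_ge (n := 1) (a := (a : K)) (b := (b : K))
          (ha.imp id fun h => by omega) (hb.imp id fun h => by omega)
        exact h.imp id fun h => by
          change 0 < O.ord ((a : K) + b)
          omega
      zero_mem' := Or.inl rfl
      smul_mem' := by
        intro c x hx
        change ((c : K) * x = 0 ∨ 0 < O.ord ((c : K) * x))
        by_cases hc : (c : K) = 0
        · left; rw [hc, zero_mul]
        rcases hx with hx | hx
        · left; rw [hx, mul_zero]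
        · by_cases hx0 : (x : K) = 0
          · left; rw [hx0, mul_zero]
          right
          rw [O.ord_mul _ _ hc hx0]
          have : 0 ≤ O.ord c := c.2
          omega }
  have hI : I.IsMaximal := by
    rw [Ideal.isMaximal_iff]
    constructor
    · intro h
      have h1 : ((1 : K) = 0 ∨ 0 < O.ord 1) := h
      rcases h1 with h1 | h1
      · exact one_ne_zero h1
      · rw [O.ord_one] at h1; exact lt_irrefl _ h1
    · intro I' x hle hx hx'
      have h1 : ¬ ((x : K) = 0 ∨ 0 < O.ord x) := hx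
      push Not at h1
      have h2 : 0 ≤ O.ord x := x.2
      have h3 : (x : K)⁻¹ ∈ O.ring := by
        change 0 ≤ O.ord (x : K)⁻¹
        rw [O.ord_inv]; omega
      have h4 : (1 : O.ring) = ⟨(x : K)⁻¹, h3⟩ * x := by
        apply Subtype.ext
        change (1 : K) = (x : K)⁻¹ * x
        rw [inv_mul_cancel₀ h1.1]
      rw [h4]
      exact I'.mul_mem_left _ hx'
  let _ : Field (O.ring ⧸ I) := Ideal.Quotient.field I
  refine ⟨O.ring ⧸ I, inferInstance, inferInstance, Ideal.Quotient.mkₐ ℂ I,
    Ideal.Quotient.mkₐ_surjective ℂ I, fun x => ?_⟩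
  exact Ideal.Quotient.eq_zero_iff_mem

variable (O : DVal K) {κ : Type} [Field κ] [Algebra ℂ κ] (ρ : O.ring →ₐ[ℂ] κ)
  (hρ : ∀ x : O.ring, ρ x = 0 ↔ ((x : K) = 0 ∨ 0 < O.ord x))

include hρ

theorem algebraicIndependent_residue (t : K) (ht : O.ord t = 1) {ι : Type} (b : ι → O.ring)
    (hb : AlgebraicIndependent ℂ fun i => ρ (b i)) :
    AlgebraicIndependent ℂ fun o : Option ι => o.elim t fun i => (b i : K) := by
  have hb1 : AlgebraicIndependent ℂ b := AlgebraicIndependent.of_comp ρ hb
  have hb2 : AlgebraicIndependent ℂ fun i => (b i : K) :=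
    hb1.map' (f := O.ring.val) Subtype.val_injective
  have ht0 : t ≠ 0 := by rintro rfl; simp at ht
  have hord : ∀ c ∈ Algebra.adjoin ℂ (Set.range fun i => (b i : K)), c ≠ 0 → O.ord c = 0 := by
    intro c hc hc0
    rw [Algebra.adjoin_range_eq_range_aeval] at hc
    obtain ⟨P, rfl⟩ := hc
    have h1 : MvPolynomial.aeval (fun i => (b i : K)) P = ((MvPolynomial.aeval b P : O.ring) : K) := by
      have h2 : (MvPolynomial.aeval (fun i => (b i : K)) : MvPolynomial ι ℂ →ₐ[ℂ] K) =
          O.ring.val.comp (MvPolynomial.aeval b) := by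
        apply MvPolynomial.algHom_ext
        intro i; simp
      rw [h2]; rfl
    have h2 : ρ (MvPolynomial.aeval b P) = MvPolynomial.aeval (fun i => ρ (b i)) P := by
      have h3 : (MvPolynomial.aeval (fun i => ρ (b i)) : MvPolynomial ι ℂ →ₐ[ℂ] κ) =
          ρ.comp (MvPolynomial.aeval b) := by
        apply MvPolynomial.algHom_ext
        intro i; simp
      rw [h3]; rfl
    have hP : P ≠ 0 := by
      rintro rfl
      apply hc0
      simp
    have h3 : ρ (MvPolynomial.aeval b P) ≠ 0 := by
      rw [h2]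
      intro h4
      exact hP ((injective_iff_map_eq_zero _).1 hb P h4)
    rw [Ne, hρ] at h3
    push Not at h3
    have h4 : 0 ≤ O.ord ((MvPolynomial.aeval b P : O.ring) : K) := (MvPolynomial.aeval b P : O.ring).2
    change O.ord (MvPolynomial.aeval (fun i => (b i : K)) P) = 0
    rw [h1]
    omega
  rw [AlgebraicIndependent.option_iff]
  refine ⟨hb2, ?_⟩
  rw [transcendental_iff]
  intro p hp
  by_contra hp0
  have hM : (p ≠ 0 → Polynomial.aeval t p ≠ 0) ∧
      (Polynomial.aeval t p = 0 ∨ 0 ≤ O.ord (Polynomial.aeval t p)) ∧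
      (p.coeff 0 = 0 → Polynomial.aeval t p = 0 ∨ 0 < O.ord (Polynomial.aeval t p)) := by
    clear hp hp0
    refine Polynomial.recOnHorner (M := fun p => (p ≠ 0 → Polynomial.aeval t p ≠ 0) ∧
      (Polynomial.aeval t p = 0 ∨ 0 ≤ O.ord (Polynomial.aeval t p)) ∧
      (p.coeff 0 = 0 → Polynomial.aeval t p = 0 ∨ 0 < O.ord (Polynomial.aeval t p))) p ?_ ?_ ?_
    · simp
    · intro q a hq ha ⟨h1, h2, h3⟩
      have ha0 : (a : K) ≠ 0 := fun h => ha (Subtype.ext h)
      have h4 : Polynomial.aeval t (q + Polynomial.C a) = (a : K) + Polynomial.aeval t q := by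
        rw [map_add, Polynomial.aeval_C, add_comm]; rfl
      have h5 := hord a a.2 ha0
      have h6 := O.ord_add_eq ha0 ((h3 hq).imp id fun h => by rw [h5]; exact h)
      refine ⟨fun _ => ?_, ?_, ?_⟩
      · rw [h4]; exact h6.2
      · right; rw [h4, h6.1, h5]
      · intro h7
        rw [Polynomial.coeff_add, hq, zero_add, Polynomial.coeff_C_zero] at h7
        exact absurd h7 ha
    · intro q hq ⟨h1, h2, h3⟩
      have h4 : Polynomial.aeval t (q * Polynomial.X) = Polynomial.aeval t q * t := by
        rw [map_mul, Polynomial.aeval_X]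
      have h5 := h1 hq
      have h6 := h2.resolve_left h5
      rw [h4]
      refine ⟨fun _ => mul_ne_zero h5 ht0, ?_, fun _ => ?_⟩ <;> right <;>
        rw [O.ord_mul _ _ h5 ht0, ht] <;> omega
  exact hM.1 hp0 hp

theorem ders_eq_zero (hsurj : Function.Surjective ρ) (t : O.ring) (ht : O.ord t = 1) {ι : Type}
    (b : ι → O.ring) (hb : IsTranscendenceBasis ℂ fun i => ρ (b i)) (D : O.ring → κ)
    (hD : D ∈ Ders ρ) (hDt : D t = 0) (hDb : ∀ i, D (b i) = 0) : D = 0 := by
  obtain ⟨h1, h2, h3⟩ := hD
  have ht0 : (t : K) ≠ 0 := by intro h; rw [h] at ht; simp at ht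
  have hρt : ρ t = 0 := (hρ t).2 (Or.inr (by omega))
  have hker : ∀ x, ρ x = 0 → D x = 0 := by
    intro x hx
    have h4 : (x : K) / t ∈ O.ring := by
      change 0 ≤ O.ord ((x : K) / t)
      rcases (hρ x).1 hx with h5 | h5
      · rw [h5, zero_div, O.ord_zero]
      · by_cases h6 : (x : K) = 0
        · rw [h6, zero_div, O.ord_zero]
        · rw [O.ord_div h6 ht0]; omega
    have h5 : x = t * ⟨(x : K) / t, h4⟩ := by
      apply Subtype.ext
      change (x : K) = t * ((x : K) / t)
      field_simp
    rw [h5, h2, hρt, hDt]; ring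
  have hD0 : D 0 = 0 := by
    have := h1 0 0
    simpa using this
  have hneg : ∀ x, D (-x) = - D x := by
    intro x
    have := h1 x (-x)
    rw [add_neg_cancel, hD0] at this
    exact (neg_eq_of_add_eq_zero_right this.symm).symm
  have hcongr : ∀ x y, ρ x = ρ y → D x = D y := by
    intro x y h
    have h4 : D (x + -y) = 0 := hker _ (by rw [map_add, map_neg, h, add_neg_cancel])
    rw [h1, hneg] at h4
    exact add_neg_eq_zero.1 h4
  choose σ hσ using hsurj
  let δ₀ : κ → κ := fun y => D (σ y)
  have hδ : ∀ x, δ₀ (ρ x) = D x := fun x => hcongr _ _ (hσ _)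
  let δ : Derivation ℂ κ κ := Derivation.mk'
    { toFun := δ₀
      map_add' := by
        intro x y
        obtain ⟨x, rfl⟩ : ∃ a, ρ a = x := ⟨σ x, hσ x⟩
        obtain ⟨y, rfl⟩ : ∃ a, ρ a = y := ⟨σ y, hσ y⟩
        rw [← map_add, hδ, hδ, hδ, h1]
      map_smul' := by
        intro c x
        obtain ⟨x, rfl⟩ : ∃ a, ρ a = x := ⟨σ x, hσ x⟩
        rw [← map_smul, hδ, hδ, Algebra.smul_def, h2, h3, AlgHom.commutes, RingHom.id_apply,
          Algebra.smul_def]
        ring }
    (by
      intro x y
      obtain ⟨x, rfl⟩ : ∃ a, ρ a = x := ⟨σ x, hσ x⟩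
      obtain ⟨y, rfl⟩ : ∃ a, ρ a = y := ⟨σ y, hσ y⟩
      change δ₀ (ρ x * ρ y) = ρ x • δ₀ (ρ y) + ρ y • δ₀ (ρ x)
      rw [← map_mul, hδ, hδ, hδ, h2]
      simp)
  have hδρ : ∀ x, δ (ρ x) = D x := hδ
  -- the field of constants
  let L := IntermediateField.adjoin ℂ (Set.range fun i => ρ (b i))
  have hL : ∀ y ∈ L, δ y = 0 := by
    intro y hy
    induction hy using IntermediateField.adjoin_induction with
    | mem y hy =>
      obtain ⟨i, rfl⟩ := hy
      simp only [hδρ, hDb]
    | algebraMap c => simp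
    | add x y _ _ hx hy => rw [map_add, hx, hy, add_zero]
    | inv x _ hx => rw [Derivation.leibniz_inv, hx, smul_zero]
    | mul x y _ _ hx hy => rw [Derivation.leibniz, hx, hy, smul_zero, smul_zero, add_zero]
  let δL : Derivation L κ κ := Derivation.mk'
    { toFun := δ
      map_add' := map_add δ
      map_smul' := by
        intro c x
        rw [Algebra.smul_def, Derivation.leibniz, RingHom.id_apply, Algebra.smul_def]
        have : δ (algebraMap L κ c) = 0 := hL _ c.2
        rw [this, smul_zero, add_zero]; rfl }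
    (fun x y => Derivation.leibniz δ x y)
  have halg : Algebra.IsAlgebraic L κ := hb.isAlgebraic_field
  have hsep : Algebra.IsSeparable L κ := inferInstance
  have hunr : Algebra.FormallyUnramified L κ := Algebra.FormallyUnramified.of_isSeparable L κ
  have hsub : Subsingleton (Ω[κ⁄L]) := inferInstance
  funext x
  have h4 : δL (ρ x) = 0 := by
    rw [← Derivation.liftKaehlerDifferential_comp_D δL,
      Subsingleton.elim (KaehlerDifferential.D L κ (ρ x)) 0, map_zero]
  exact (hδρ x).symm.trans h4

end Pool.Agent.LibGMM
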