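import Mathlib

/-! TASK G2a. -/

namespace Pool.Agent.LibGMM

/-- Local case: `L` is a Noetherian local integrally closed domain with field of fractions `K`, and
`y ∈ K` is an element outside of `L` which is mapped into `L` by the maximal ideal of `L`. Then `L`
is a discrete valuation ring. -/
private theorem dvr_of_maximal_colon {L K : Type} [CommRing L] [IsDomain L] [IsNoetherianRing L]
    [IsLocalRing L] [IsIntegrallyClosed L] [Field K] [Algebra L K] [IsFractionRing L K]
    (y : K) (hy : ∀ a : L, algebraMap L K a ≠ y)
    (hm : ∀ c ∈ IsLocalRing.maximalIdeal L, ∃ a : L, algebraMap L K a = algebraMap L K c * y) :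
    IsDiscreteValuationRing L := by
  classical
  have hinj : Function.Injective (algebraMap L K) := IsFractionRing.injective L K
  have hnf : ¬ IsField L := by
    intro hf
    obtain ⟨⟨a, s⟩, hs⟩ := IsLocalization.surj (nonZeroDivisors L) y
    have hs0 : (s : L) ≠ 0 := nonZeroDivisors.ne_zero s.2
    obtain ⟨b, hb⟩ := hf.mul_inv_cancel hs0
    apply hy (a * b)
    rw [map_mul, ← hs, mul_assoc, ← map_mul, hb, map_one, mul_one]
  have hbot : IsLocalRing.maximalIdeal L ≠ ⊥ := fun h =>
    hnf (IsLocalRing.isField_iff_maximalIdeal_eq.2 h)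
  -- some element of the maximal ideal is sent to a unit
  have key : ∃ c ∈ IsLocalRing.maximalIdeal L, ∃ u : L, IsUnit u ∧
      algebraMap L K u = algebraMap L K c * y := by
    by_contra hcon
    push Not at hcon
    -- then `y` is integral
    have hint : IsIntegral L y := by
      refine isIntegral_of_smul_mem_submodule (R := L) (A := K) (M := K)
        (Submodule.map (Algebra.linearMap L K) (IsLocalRing.maximalIdeal L)) ?_ ?_ y ?_
      · intro h0
        apply hbot
        refine (Submodule.eq_bot_iff _).2 fun c hc => ?_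
        have h1 : Algebra.linearMap L K c ∈ (⊥ : Submodule L K) :=
          h0 ▸ Submodule.mem_map_of_mem hc
        rw [Submodule.mem_bot, Algebra.linearMap_apply] at h1
        exact hinj (by rw [h1, map_zero])
      · exact Submodule.FG.map _ (IsNoetherian.noetherian _)
      · rintro n ⟨c, hc, rfl⟩
        obtain ⟨a, ha⟩ := hm c hc
        refine ⟨a, ?_, ?_⟩
        · by_contra ha'
          have hu : IsUnit a := by
            by_contra hu
            exact ha' ((IsLocalRing.mem_maximalIdeal a).2 hu)
          exact hcon c hc a hu ha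
        · simp only [Algebra.linearMap_apply, smul_eq_mul]
          rw [ha, mul_comm]
    obtain ⟨a, ha⟩ := IsIntegrallyClosed.algebraMap_eq_of_integral hint
    exact hy a ha
  obtain ⟨c, hc, u, hu, huc⟩ := key
  have hprin : (IsLocalRing.maximalIdeal L).IsPrincipal := by
    refine ⟨c, le_antisymm ?_ ?_⟩
    · intro d hd
      obtain ⟨a, ha⟩ := hm d hd
      obtain ⟨v, hv⟩ := hu.exists_left_inv
      refine Ideal.mem_span_singleton'.2 ⟨a * v, hinj ?_⟩
      have h1 : algebraMap L K v * algebraMap L K u = 1 := by rw [← map_mul, hv, map_one]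
      have hc0 : algebraMap L K c ≠ 0 := by
        intro h0
        rw [h0, zero_mul] at huc
        rw [huc, mul_zero] at h1
        exact zero_ne_one h1
      rw [map_mul, map_mul, ha]
      rw [huc] at h1
      linear_combination (algebraMap L K d) * h1
    · exact (Ideal.span_singleton_le_iff_mem _).2 hc
  exact ((IsDiscreteValuationRing.TFAE L hnf).out 0 4).2 hprin

/-- A Noetherian integrally closed domain is the intersection of its localizations which are discrete
valuation rings; local form at a prime `P`. (Take an associated prime of `K / A`, or of `A / (b)`,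
containing the annihilator of `x`; there is `exists_le_isAssociatedPrime_of_isNoetherianRing`.) -/
theorem exists_dvr_of_not_mem {A K : Type} [CommRing A] [IsDomain A] [IsNoetherianRing A]
    [IsIntegrallyClosed A] [Field K] [Algebra A K] [IsFractionRing A K] (P : Ideal A) [P.IsPrime]
    (x : K) (hx : ∀ a b : A, b ∉ P → x ≠ algebraMap A K a / algebraMap A K b) :
    ∃ (P' : Ideal A) (_ : P'.IsPrime), P' ≤ P ∧
      IsDiscreteValuationRing (Localization.AtPrime P') ∧
      ∀ a b : A, b ∉ P' → x ≠ algebraMap A K a / algebraMap A K b := by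
  classical
  have hinj : Function.Injective (algebraMap A K) := IsFractionRing.injective A K
  have hne : ∀ b : A, b ≠ 0 → algebraMap A K b ≠ 0 := fun b hb h =>
    hb (hinj (by rw [h, map_zero]))
  have hne' : ∀ (Q : Ideal A) (b : A), b ∉ Q → algebraMap A K b ≠ 0 := fun Q b hb =>
    hne b (fun h => hb (h ▸ Q.zero_mem))
  have hPne : ∀ b c : A, b ∉ P → c ∉ P → b * c ∉ P := fun b c hb hc h =>
    (Ideal.IsPrime.mem_or_mem ‹P.IsPrime› h).elim hb hc
  have h1P : (1 : A) ∉ P := fun h => (Ideal.IsPrime.ne_top ‹P.IsPrime›) ((Ideal.eq_top_iff_one P).2 h)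
  let AP : Submodule A K :=
    { carrier := {x | ∃ a b : A, b ∉ P ∧ x = algebraMap A K a / algebraMap A K b}
      add_mem' := by
        rintro x y ⟨a, b, hb, rfl⟩ ⟨c, d, hd, rfl⟩
        refine ⟨a * d + b * c, b * d, hPne b d hb hd, ?_⟩
        have hb0 := hne' P b hb
        have hd0 := hne' P d hd
        simp only [map_add, map_mul]
        field_simp
      zero_mem' := ⟨0, 1, h1P, by simp⟩
      smul_mem' := by
        rintro c x ⟨a, b, hb, rfl⟩
        refine ⟨c * a, b, hb, ?_⟩
        rw [Algebra.smul_def, map_mul, mul_div_assoc] }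
  have hAP : ∀ z : K, z ∈ AP ↔ ∃ a b : A, b ∉ P ∧ z = algebraMap A K a / algebraMap A K b :=
    fun z => Iff.rfl
  have hx' : (Submodule.Quotient.mk x : K ⧸ AP) ≠ 0 := by
    intro h
    rw [Submodule.Quotient.mk_eq_zero] at h
    obtain ⟨a, b, hb, h⟩ := h
    exact hx a b hb h
  obtain ⟨P', hP', hle⟩ := exists_le_isAssociatedPrime_of_isNoetherianRing A
    (Submodule.Quotient.mk x : K ⧸ AP) hx'
  obtain ⟨hprime, ybar, hy⟩ := (isAssociatedPrime_iff).1 hP'
  obtain ⟨y, rfl⟩ := Submodule.Quotient.mk_surjective AP ybar
  have hmem : ∀ c : A, c ∈ P' ↔ algebraMap A K c * y ∈ AP := by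
    intro c
    rw [hy, Submodule.mem_colon_singleton, ← Submodule.Quotient.mk_smul, Submodule.mem_bot,
      Submodule.Quotient.mk_eq_zero, Algebra.smul_def]
  have hmemx : ∀ c : A, algebraMap A K c * x ∈ AP → c ∈ P' := by
    intro c hc
    apply hle
    rw [Submodule.mem_colon_singleton, ← Submodule.Quotient.mk_smul, Submodule.mem_bot,
      Submodule.Quotient.mk_eq_zero, Algebra.smul_def]
    exact hc
  have h1P' : (1 : A) ∉ P' := fun h => hprime.ne_top ((Ideal.eq_top_iff_one P').2 h)
  have hyAP : y ∉ AP := by
    intro h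
    apply h1P'
    rw [hmem]
    simpa using h
  have hPP : P' ≤ P := by
    intro c hc
    by_contra hcP
    rw [hmem] at hc
    obtain ⟨a, b, hb, h⟩ := hc
    apply hyAP
    refine ⟨a, b * c, hPne b c hb hcP, ?_⟩
    have hb0 := hne' P b hb
    have hc0 := hne' P c hcP
    rw [map_mul]
    field_simp
    field_simp at h
    linear_combination h
  refine ⟨P', hprime, hPP, ?_, ?_⟩
  · -- the local ring
    let L := Localization.AtPrime P'
    have : IsDomain L := IsLocalization.isDomain_localization (P'.primeCompl_le_nonZeroDivisors)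
    let _ : Algebra L K := IsLocalization.localizationAlgebraOfSubmonoidLe L K P'.primeCompl
      (nonZeroDivisors A) P'.primeCompl_le_nonZeroDivisors
    have : IsScalarTower A L K := IsLocalization.localization_isScalarTower_of_submonoid_le L K
      P'.primeCompl (nonZeroDivisors A) P'.primeCompl_le_nonZeroDivisors
    have : IsFractionRing L K :=
      IsFractionRing.isFractionRing_of_isDomain_of_isLocalization P'.primeCompl L K
    have : IsIntegrallyClosed L := isIntegrallyClosed_of_isLocalization L P'.primeCompl
      P'.primeCompl_le_nonZeroDivisors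
    have : IsNoetherianRing L := IsLocalization.isNoetherianRing P'.primeCompl L inferInstance
    have hsurj : ∀ z : L, ∃ a b : A, b ∉ P' ∧
        algebraMap L K z = algebraMap A K a / algebraMap A K b ∧
        z * algebraMap A L b = algebraMap A L a := by
      intro z
      obtain ⟨⟨a, b⟩, h⟩ := IsLocalization.surj P'.primeCompl z
      refine ⟨a, b, b.2, ?_, h⟩
      have hb0 := hne' P' b b.2
      rw [eq_div_iff hb0, IsScalarTower.algebraMap_apply A L K, IsScalarTower.algebraMap_apply A L K,
        ← map_mul, h]
    have hunit : ∀ b : A, b ∉ P' → IsUnit (algebraMap A L b) := fun b hb =>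
      IsLocalization.map_units L (⟨b, hb⟩ : P'.primeCompl)
    have hlift : ∀ a b : A, b ∉ P' → ∃ z : L, algebraMap L K z = algebraMap A K a / algebraMap A K b := by
      intro a b hb
      refine ⟨IsLocalization.mk' L a (⟨b, hb⟩ : P'.primeCompl), ?_⟩
      have hb0 := hne' P' b hb
      rw [eq_div_iff hb0, IsScalarTower.algebraMap_apply A L K, IsScalarTower.algebraMap_apply A L K,
        ← map_mul]
      congr 1
      exact IsLocalization.mk'_spec L a (⟨b, hb⟩ : P'.primeCompl)
    refine dvr_of_maximal_colon (L := L) (K := K) y ?_ ?_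
    · intro z hz
      obtain ⟨a, b, hb, h1, -⟩ := hsurj z
      have hb0 := hne' P' b hb
      apply hb
      rw [hmem]
      refine ⟨a, 1, h1P, ?_⟩
      rw [← hz, h1, map_one, div_one]
      field_simp
    · intro c hc
      obtain ⟨a, b, hb, h1, h2⟩ := hsurj c
      have ha : a ∈ P' := by
        by_contra ha
        have h3 : IsUnit (c * algebraMap A L b) := h2 ▸ hunit a ha
        exact (IsLocalRing.mem_maximalIdeal c).1 hc (isUnit_of_mul_isUnit_left h3)
      obtain ⟨d, e, he, h4⟩ := (hmem a).1 ha
      have he' : e ∉ P' := fun h => he (hPP h)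
      obtain ⟨z, hz⟩ := hlift d (b * e) (fun h => (hprime.mem_or_mem h).elim hb he')
      refine ⟨z, ?_⟩
      have hb0 := hne' P' b hb
      have he0 := hne' P' e he'
      rw [hz, h1, map_mul]
      field_simp
      field_simp at h4
      linear_combination -h4
  · intro a b hb h
    apply hb
    apply hmemx
    have hb0 := hne' P' b hb
    refine ⟨a, 1, h1P, ?_⟩
    rw [h, map_one, div_one]
    field_simp

end Pool.Agent.LibGMM
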