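import Pool.Agent.LibGMM.CanChart

/-! Derivations of the charts of a hypersurface. -/

open scoped KaehlerDifferential

namespace Pool.Agent.LibGMM

theorem aeval_dual {σ B : Type} [Fintype σ] [CommRing B] [Algebra ℂ B] (z c : σ → B)
    (p : MvPolynomial σ ℂ) :
    MvPolynomial.aeval (fun v => (TrivSqZeroExt.inl (z v) + TrivSqZeroExt.inr (c v) :
      TrivSqZeroExt B B)) p =
      TrivSqZeroExt.inl (MvPolynomial.aeval z p) +
        TrivSqZeroExt.inr (∑ v, MvPolynomial.aeval z (MvPolynomial.pderiv v p) * c v) := by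
  classical
  induction p using MvPolynomial.induction_on with
  | C a =>
    rw [MvPolynomial.aeval_C, MvPolynomial.aeval_C]
    simp only [MvPolynomial.pderiv_C, map_zero, zero_mul, Finset.sum_const_zero,
      TrivSqZeroExt.inr_zero, add_zero]
    rfl
  | add p q hp hq =>
    simp only [map_add, hp, hq, add_mul, Finset.sum_add_distrib, TrivSqZeroExt.inl_add,
      TrivSqZeroExt.inr_add]
    abel
  | mul_X p i hp =>
    rw [map_mul, hp, MvPolynomial.aeval_X]
    have h1 : ∑ v, MvPolynomial.aeval z (MvPolynomial.pderiv v (p * MvPolynomial.X i)) * c v =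
        (∑ v, MvPolynomial.aeval z (MvPolynomial.pderiv v p) * c v) * z i +
          MvPolynomial.aeval z p * c i := by
      rw [Finset.sum_mul]
      have h2 : MvPolynomial.aeval z p * c i =
          ∑ v, MvPolynomial.aeval z p * (if v = i then 1 else 0) * c v := by
        rw [Finset.sum_eq_single i]
        · simp
        · intro v _ hv; rw [if_neg hv]; ring
        · intro h; exact absurd (Finset.mem_univ _) h
      rw [h2, ← Finset.sum_add_distrib]
      refine Finset.sum_congr rfl fun v _ => ?_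
      rw [MvPolynomial.pderiv_mul, MvPolynomial.pderiv_X, map_add, map_mul, map_mul,
        MvPolynomial.aeval_X]
      have h3 : MvPolynomial.aeval z (Pi.single (M := fun _ => MvPolynomial σ ℂ) v 1 i) =
          (if v = i then 1 else 0 : B) := by
        by_cases h : v = i
        · subst h; simp
        · rw [if_neg h, Pi.single_eq_of_ne (Ne.symm h), map_zero]
      rw [h3]; ring
    rw [h1]
    ext
    · simp
    · simp
      ring

variable {K : Type} [Field K] [Algebra ℂ K]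

/-- Derivations of `S` with values in the `S`-algebra `B`. -/
def Ders {B : Type} [Field B] [Algebra ℂ B] {S : Subalgebra ℂ K} (ρ : S →ₐ[ℂ] B) :
    Submodule B (S → B) where
  carrier := {D | (∀ x y, D (x + y) = D x + D y) ∧ (∀ x y, D (x * y) = ρ x * D y + ρ y * D x) ∧
    ∀ c : ℂ, D (algebraMap ℂ S c) = 0}
  add_mem' := by
    rintro D D' ⟨h1, h2, h3⟩ ⟨h1', h2', h3'⟩
    refine ⟨fun x y => ?_, fun x y => ?_, fun c => ?_⟩
    · simp only [Pi.add_apply, h1, h1']; ring
    · simp only [Pi.add_apply, h2, h2']; ring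
    · simp only [Pi.add_apply, h3, h3']; ring
  zero_mem' := by
    refine ⟨fun x y => ?_, fun x y => ?_, fun c => ?_⟩ <;> simp
  smul_mem' := by
    rintro c D ⟨h1, h2, h3⟩
    refine ⟨fun x y => ?_, fun x y => ?_, fun a => ?_⟩
    · simp only [Pi.smul_apply, h1, smul_eq_mul]; ring
    · simp only [Pi.smul_apply, h2, smul_eq_mul]; ring
    · simp only [Pi.smul_apply, h3, smul_eq_mul]; ring

variable {J : Type} [Fintype J] {m d : J → ℕ} (H : Hypersurface K m d)
  (s : (j : J) → Fin (m j + 1))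

theorem Hypersurface.aeval_multiHom (G : MvPolynomial (Σ j, Fin (m j + 1)) ℂ) (e : J → ℕ)
    (hG : MultiHom G e) :
    MvPolynomial.aeval (fun v : Σ j, Fin (m j + 1) => (H.x v.1 v.2 : K)) G =
      (∏ j, (H.x j (s j) : K) ^ e j) * MvPolynomial.aeval (H.aff s) G := by
  conv_lhs => rw [G.as_sum, map_sum]
  conv_rhs => rw [G.as_sum, map_sum, Finset.mul_sum]
  refine Finset.sum_congr rfl fun c hc => ?_
  rw [MvPolynomial.aeval_monomial, MvPolynomial.aeval_monomial, prod_sigma_pow, prod_sigma_pow,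
    mul_left_comm, ← Finset.prod_mul_distrib]
  congr 1
  refine Finset.prod_congr rfl fun j _ => ?_
  have h2 : ∏ r, H.aff s ⟨j, r⟩ ^ c ⟨j, r⟩ =
      (∏ r, (H.x j r : K) ^ c ⟨j, r⟩) / (H.x j (s j) : K) ^ (∑ r, c ⟨j, r⟩) := by
    simp only [Hypersurface.aff, div_pow, Finset.prod_div_distrib, Finset.prod_pow_eq_pow_sum]
  rw [h2, hG c hc j]
  have h4 : (H.x j (s j) : K) ^ (e j) ≠ 0 := pow_ne_zero _ (Units.ne_zero _)
  field_simp

theorem Hypersurface.aeval_aff_F : MvPolynomial.aeval (H.aff s) H.F = 0 := by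
  have h := H.aeval_multiHom s H.F d H.homog
  rw [H.vanish] at h
  rcases mul_eq_zero.1 h.symm with h1 | h1
  · exact absurd h1 (Finset.prod_ne_zero_iff.2 fun j _ => pow_ne_zero _ (Units.ne_zero _))
  · exact h1

theorem Hypersurface.aeval_mem (g : MvPolynomial (Σ j, Fin (m j + 1)) ℂ) :
    MvPolynomial.aeval (H.aff s) g ∈ chart (segre H.x) s :=
  (H.mem_chart_iff s _).2 ⟨g, rfl⟩

/-- Existence of derivations with prescribed values at the affine coordinates. -/
theorem Hypersurface.exists_der (S : Subalgebra ℂ K) (hS : chart (segre H.x) s ≤ S)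
    {B : Type} [Field B] [Algebra ℂ B] (ρ : S →ₐ[ℂ] B)
    (hfrac : ∀ x : S, ∃ p q : MvPolynomial (Σ j, Fin (m j + 1)) ℂ,
      (x : K) * MvPolynomial.aeval (H.aff s) q = MvPolynomial.aeval (H.aff s) p ∧
      ρ ⟨MvPolynomial.aeval (H.aff s) q, hS (H.aeval_mem s q)⟩ ≠ 0)
    (c : (Σ j, Fin (m j + 1)) → B) (hc : ∀ j, c ⟨j, s j⟩ = 0)
    (hrel : ∑ v, ρ ⟨MvPolynomial.aeval (H.aff s) (MvPolynomial.pderiv v H.F),
      hS (H.aeval_mem s _)⟩ * c v = 0) :
    ∃ D ∈ Ders ρ, ∀ v, D ⟨H.aff s v, hS (H.aff_mem s v)⟩ = c v := by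
  classical
  set z : (Σ j, Fin (m j + 1)) → B := fun v => ρ ⟨H.aff s v, hS (H.aff_mem s v)⟩ with hz
  set z' : (Σ j, Fin (m j + 1)) → TrivSqZeroExt B B :=
    fun v => TrivSqZeroExt.inl (z v) + TrivSqZeroExt.inr (c v) with hz'
  have hev : ∀ p, MvPolynomial.aeval z p =
      ρ ⟨MvPolynomial.aeval (H.aff s) p, hS (H.aeval_mem s p)⟩ := by
    intro p
    have h1 : (MvPolynomial.aeval z : MvPolynomial (Σ j, Fin (m j + 1)) ℂ →ₐ[ℂ] B) =
        ρ.comp (MvPolynomial.aeval fun v => (⟨H.aff s v, hS (H.aff_mem s v)⟩ : S)) := by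
      apply MvPolynomial.algHom_ext
      intro v
      simp [hz]
    rw [h1]
    change ρ _ = _
    congr 1
    apply Subtype.ext
    change S.val _ = _
    have h2 : S.val.comp (MvPolynomial.aeval fun v => (⟨H.aff s v, hS (H.aff_mem s v)⟩ : S)) =
        (MvPolynomial.aeval (H.aff s) : MvPolynomial (Σ j, Fin (m j + 1)) ℂ →ₐ[ℂ] K) := by
      apply MvPolynomial.algHom_ext
      intro v
      simp
    exact congrArg (fun f => f p) h2
  have hdual : ∀ p, MvPolynomial.aeval z' p = TrivSqZeroExt.inl (MvPolynomial.aeval z p) +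
      TrivSqZeroExt.inr (∑ v, MvPolynomial.aeval z (MvPolynomial.pderiv v p) * c v) :=
    fun p => aeval_dual z c p
  have hz1 : ∀ j, z' ⟨j, s j⟩ = 1 := by
    intro j
    have h1 : z ⟨j, s j⟩ = 1 := by
      have h2 : (⟨H.aff s ⟨j, s j⟩, hS (H.aff_mem s _)⟩ : S) = 1 := Subtype.ext (H.aff_self s j)
      simp only [hz, h2, map_one]
    simp only [hz', h1, hc j]
    simp
  have hF0 : MvPolynomial.aeval z' H.F = 0 := by
    rw [hdual, hev]
    have h1 : (⟨MvPolynomial.aeval (H.aff s) H.F, hS (H.aeval_mem s H.F)⟩ : S) = 0 :=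
      Subtype.ext (H.aeval_aff_F s)
    rw [h1, map_zero]
    simp only [hev]
    rw [hrel]; simp
  have hker : ∀ p q : MvPolynomial (Σ j, Fin (m j + 1)) ℂ,
      MvPolynomial.aeval (H.aff s) p = MvPolynomial.aeval (H.aff s) q →
      MvPolynomial.aeval z' p = MvPolynomial.aeval z' q := by
    intro p q h
    rw [← sub_eq_zero, ← map_sub]
    exact H.relations s (p - q) (by rw [map_sub, h, sub_self]) _ z' hz1 hF0
  have hunit : ∀ q, ρ ⟨MvPolynomial.aeval (H.aff s) q, hS (H.aeval_mem s q)⟩ ≠ 0 →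
      IsUnit (MvPolynomial.aeval z' q) := by
    intro q hq
    rw [TrivSqZeroExt.isUnit_iff_isUnit_fst, hdual]
    simp only [TrivSqZeroExt.fst_add, TrivSqZeroExt.fst_inl, TrivSqZeroExt.fst_inr, add_zero, hev]
    exact isUnit_iff_ne_zero.2 hq
  have hW : ∀ x : S, ∃ w : TrivSqZeroExt B B, ∀ p q : MvPolynomial (Σ j, Fin (m j + 1)) ℂ,
      (x : K) * MvPolynomial.aeval (H.aff s) q = MvPolynomial.aeval (H.aff s) p →
      w * MvPolynomial.aeval z' q = MvPolynomial.aeval z' p := by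
    intro x
    obtain ⟨p0, q0, h1, h2⟩ := hfrac x
    obtain ⟨u, hu⟩ := hunit q0 h2
    refine ⟨MvPolynomial.aeval z' p0 * (u⁻¹ : (TrivSqZeroExt B B)ˣ), fun p q hpq => ?_⟩
    have h3 : MvPolynomial.aeval (H.aff s) (q * p0) = MvPolynomial.aeval (H.aff s) (p * q0) := by
      rw [map_mul, map_mul, ← h1, ← hpq]; ring
    have h4 := hker _ _ h3
    rw [map_mul, map_mul, ← hu] at h4
    calc MvPolynomial.aeval z' p0 * (u⁻¹ : (TrivSqZeroExt B B)ˣ) * MvPolynomial.aeval z' q
        = (MvPolynomial.aeval z' q * MvPolynomial.aeval z' p0) *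
          (u⁻¹ : (TrivSqZeroExt B B)ˣ) := by ring
      _ = MvPolynomial.aeval z' p * (u * (u⁻¹ : (TrivSqZeroExt B B)ˣ)) := by rw [h4]; ring
      _ = MvPolynomial.aeval z' p := by rw [Units.mul_inv, mul_one]
  choose W hW using hW
  have hWadd : ∀ x y, W (x + y) = W x + W y := by
    intro x y
    obtain ⟨p0, q0, h1, h2⟩ := hfrac x
    obtain ⟨p1, q1, h3, h4⟩ := hfrac y
    have e0 := hW x p0 q0 h1
    have e1 := hW y p1 q1 h3
    have e2 := hW (x + y) (p0 * q1 + p1 * q0) (q0 * q1) (by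
      rw [map_add, map_mul, map_mul, map_mul, ← h1, ← h3]
      push_cast; ring)
    rw [map_add, map_mul, map_mul, map_mul, ← e0, ← e1] at e2
    have e3 : W (x + y) * (MvPolynomial.aeval z' q0 * MvPolynomial.aeval z' q1) =
        (W x + W y) * (MvPolynomial.aeval z' q0 * MvPolynomial.aeval z' q1) := by
      rw [e2]; ring
    exact ((hunit q0 h2).mul (hunit q1 h4)).mul_right_cancel e3
  have hWmul : ∀ x y, W (x * y) = W x * W y := by
    intro x y
    obtain ⟨p0, q0, h1, h2⟩ := hfrac x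
    obtain ⟨p1, q1, h3, h4⟩ := hfrac y
    have e0 := hW x p0 q0 h1
    have e1 := hW y p1 q1 h3
    have e2 := hW (x * y) (p0 * p1) (q0 * q1) (by
      rw [map_mul, map_mul, ← h1, ← h3]
      push_cast; ring)
    rw [map_mul, map_mul, ← e0, ← e1] at e2
    have e3 : W (x * y) * (MvPolynomial.aeval z' q0 * MvPolynomial.aeval z' q1) =
        (W x * W y) * (MvPolynomial.aeval z' q0 * MvPolynomial.aeval z' q1) := by
      rw [e2]; ring
    exact ((hunit q0 h2).mul (hunit q1 h4)).mul_right_cancel e3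
  have hWfst : ∀ x, (W x).fst = ρ x := by
    intro x
    obtain ⟨p0, q0, h1, h2⟩ := hfrac x
    have e0 := congrArg TrivSqZeroExt.fst (hW x p0 q0 h1)
    rw [TrivSqZeroExt.fst_mul, hdual, hdual] at e0
    simp only [TrivSqZeroExt.fst_add, TrivSqZeroExt.fst_inl, TrivSqZeroExt.fst_inr, add_zero,
      hev] at e0
    have e1 : (⟨MvPolynomial.aeval (H.aff s) p0, hS (H.aeval_mem s p0)⟩ : S) =
        x * ⟨MvPolynomial.aeval (H.aff s) q0, hS (H.aeval_mem s q0)⟩ := Subtype.ext h1.symm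
    rw [e1, map_mul] at e0
    exact mul_right_cancel₀ h2 e0
  refine ⟨fun x => (W x).snd, ⟨fun x y => ?_, fun x y => ?_, fun a => ?_⟩, fun v => ?_⟩
  · simp only [hWadd, TrivSqZeroExt.snd_add]
  · simp only [hWmul, TrivSqZeroExt.snd_mul, hWfst]
    simp [mul_comm]
  · have e0 := hW (algebraMap ℂ S a) (MvPolynomial.C a) 1 (by
      rw [map_one, mul_one, MvPolynomial.aeval_C]; rfl)
    rw [map_one, mul_one, MvPolynomial.aeval_C] at e0
    simp only [e0]
    rfl
  · have e0 := hW ⟨H.aff s v, hS (H.aff_mem s v)⟩ (MvPolynomial.X v) 1 (by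
      rw [map_one, mul_one, MvPolynomial.aeval_X])
    rw [map_one, mul_one, MvPolynomial.aeval_X] at e0
    simp only [e0]
    simp [hz']

end Pool.Agent.LibGMM
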