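import Pool.Agent.LibGMM.CanDer

/-! The relation between the differentials of the coordinates of a hypersurface. -/

open scoped KaehlerDifferential

namespace Pool.Agent.LibGMM

set_option linter.unusedSectionVars false

section poly

theorem derivation_aeval {A : Type} [CommRing A] [Algebra ℂ A] {σ M : Type} [Fintype σ] [AddCommGroup M]
    [Module A M] [Module ℂ M]
    [IsScalarTower ℂ A M] (D : Derivation ℂ A M) (z : σ → A) (p : MvPolynomial σ ℂ) :
    D (MvPolynomial.aeval z p) = ∑ v, MvPolynomial.aeval z (MvPolynomial.pderiv v p) • D (z v) := by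
  classical
  induction p using MvPolynomial.induction_on with
  | C a => simp
  | add p q hp hq => simp only [map_add, hp, hq, add_smul, Finset.sum_add_distrib]
  | mul_X p i hp =>
    rw [map_mul, Derivation.leibniz, hp, MvPolynomial.aeval_X]
    have h2 : MvPolynomial.aeval z p • D (z i) =
        ∑ v, (MvPolynomial.aeval z p * (if v = i then 1 else 0)) • D (z v) := by
      rw [Finset.sum_eq_single i]
      · simp
      · intro v _ hv; rw [if_neg hv]; simp
      · intro h; exact absurd (Finset.mem_univ _) h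
    rw [h2, Finset.smul_sum, ← Finset.sum_add_distrib]
    refine Finset.sum_congr rfl fun v _ => ?_
    rw [MvPolynomial.pderiv_mul, MvPolynomial.pderiv_X, map_add, map_mul, map_mul,
      MvPolynomial.aeval_X]
    have h3 : MvPolynomial.aeval z (Pi.single (M := fun _ => MvPolynomial σ ℂ) v 1 i) =
        (if v = i then 1 else 0 : A) := by
      by_cases h : v = i
      · subst h; simp
      · rw [if_neg h, Pi.single_eq_of_ne (Ne.symm h), map_zero]
    rw [h3, smul_smul, ← add_smul]
    congr 1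
    ring


variable {J : Type} [Fintype J] {m : J → ℕ}

theorem X_mul_pderiv_eq (G : MvPolynomial (Σ j, Fin (m j + 1)) ℂ) (v : Σ j, Fin (m j + 1)) :
    MvPolynomial.X v * MvPolynomial.pderiv v G =
      ∑ c ∈ G.support, (c v) • MvPolynomial.monomial c (G.coeff c) := by
  conv_lhs => rw [G.as_sum, map_sum, Finset.mul_sum]
  exact Finset.sum_congr rfl fun c _ => MvPolynomial.X_mul_pderiv_monomial

theorem multiHom_X_pderiv (G : MvPolynomial (Σ j, Fin (m j + 1)) ℂ) (e : J → ℕ)
    (hG : MultiHom G e) (v : Σ j, Fin (m j + 1)) :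
    MultiHom (MvPolynomial.X v * MvPolynomial.pderiv v G) e := by
  classical
  intro c hc j
  rw [X_mul_pderiv_eq] at hc
  have h1 := MvPolynomial.support_sum hc
  rw [Finset.mem_biUnion] at h1
  obtain ⟨c', hc', h2⟩ := h1
  rw [MvPolynomial.smul_monomial] at h2
  have h3 := MvPolynomial.support_monomial_subset h2
  rw [Finset.mem_singleton] at h3
  rw [h3]
  exact hG c' hc' j

theorem multiHom_pderiv (G : MvPolynomial (Σ j, Fin (m j + 1)) ℂ) (e : J → ℕ)
    (hG : MultiHom G e) (v : Σ j, Fin (m j + 1)) :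
    MultiHom (MvPolynomial.pderiv v G) (fun j => by classical exact if j = v.1 then e j - 1 else e j) := by
  classical
  intro c hc j
  have h1 : c + Finsupp.single v 1 ∈ G.support := by
    rw [MvPolynomial.mem_support_iff] at hc ⊢
    rw [MvPolynomial.coeff_pderiv] at hc
    exact left_ne_zero_of_mul hc
  have h2 := hG _ h1 j
  simp only [Finsupp.add_apply, Finset.sum_add_distrib] at h2
  obtain ⟨i, r⟩ := v
  by_cases hj : j = i
  · subst hj
    have h3 : ∑ s, (Finsupp.single (⟨j, r⟩ : Σ j, Fin (m j + 1)) 1) ⟨j, s⟩ = 1 := by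
      rw [Finset.sum_eq_single r]
      · simp
      · intro s _ hs
        rw [Finsupp.single_apply, if_neg]
        intro h
        simp only [Sigma.mk.injEq, heq_eq_eq, true_and] at h
        exact hs h.symm
      · intro h; exact absurd (Finset.mem_univ _) h
    rw [h3] at h2
    simp only [if_true]
    omega
  · have h3 : ∑ s, (Finsupp.single (⟨i, r⟩ : Σ j, Fin (m j + 1)) 1) ⟨j, s⟩ = 0 := by
      apply Finset.sum_eq_zero
      intro s _
      rw [Finsupp.single_apply, if_neg]
      intro h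
      simp only [Sigma.mk.injEq] at h
      exact hj h.1.symm
    rw [h3] at h2
    simp only [hj, if_false]
    omega

theorem euler_group (G : MvPolynomial (Σ j, Fin (m j + 1)) ℂ) (e : J → ℕ) (hG : MultiHom G e)
    (j : J) : ∑ r, MvPolynomial.X ⟨j, r⟩ * MvPolynomial.pderiv ⟨j, r⟩ G = e j • G := by
  simp only [X_mul_pderiv_eq]
  rw [Finset.sum_comm]
  conv_rhs => rw [G.as_sum, Finset.smul_sum]
  refine Finset.sum_congr rfl fun c hc => ?_
  rw [← Finset.sum_smul, hG c hc j]

theorem pderiv_ne_zero_of_multiHom (G : MvPolynomial (Σ j, Fin (m j + 1)) ℂ) (e : J → ℕ)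
    (hG : MultiHom G e) (h0 : G ≠ 0) (j : J) (hj : 1 ≤ e j) :
    ∃ v, MvPolynomial.pderiv v G ≠ 0 := by
  by_contra hcon
  push Not at hcon
  have h1 := euler_group G e hG j
  simp only [hcon, mul_zero, Finset.sum_const_zero] at h1
  have h2 : ((e j : ℕ) : MvPolynomial (Σ j, Fin (m j + 1)) ℂ) ≠ 0 := by
    exact_mod_cast (by omega : e j ≠ 0)
  rw [nsmul_eq_mul] at h1
  rcases mul_eq_zero.1 h1.symm with h3 | h3
  · exact h2 h3
  · exact h0 h3

theorem not_dvd_pderiv (G : MvPolynomial (Σ j, Fin (m j + 1)) ℂ) (v : Σ j, Fin (m j + 1))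
    (h0 : G ≠ 0) (h1 : MvPolynomial.pderiv v G ≠ 0) : ¬ G ∣ MvPolynomial.pderiv v G := by
  rintro ⟨Q, hQ⟩
  have hQ0 : Q ≠ 0 := by
    rintro rfl
    rw [mul_zero] at hQ
    exact h1 hQ
  have h2 := MvPolynomial.degreeOf_mul_eq (n := v) h0 hQ0
  rw [← hQ] at h2
  have h3 : MvPolynomial.degreeOf v (MvPolynomial.pderiv v G) < MvPolynomial.degreeOf v G := by
    have h4 : 0 < MvPolynomial.degreeOf v G := by
      obtain ⟨c, hc⟩ := MvPolynomial.support_nonempty.2 h1
      rw [MvPolynomial.mem_support_iff, MvPolynomial.coeff_pderiv] at hc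
      have h5 := MvPolynomial.monomial_le_degreeOf v
        (MvPolynomial.mem_support_iff.2 (left_ne_zero_of_mul hc))
      simp only [Finsupp.add_apply, Finsupp.single_eq_same] at h5
      omega
    rw [MvPolynomial.degreeOf_lt_iff h4]
    intro c hc
    rw [MvPolynomial.mem_support_iff, MvPolynomial.coeff_pderiv] at hc
    have h5 := MvPolynomial.monomial_le_degreeOf v
      (MvPolynomial.mem_support_iff.2 (left_ne_zero_of_mul hc))
    simp only [Finsupp.add_apply, Finsupp.single_eq_same] at h5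
    omega
  omega

end poly

variable {K : Type} [Field K] [Algebra ℂ K] {J : Type} [Fintype J] {m d : J → ℕ}
  (H : Hypersurface K m d) (s : (j : J) → Fin (m j + 1))

/-- `x_v ∂F/∂x_v` at the generic point. -/
noncomputable def Hypersurface.ld (v : Σ j, Fin (m j + 1)) : K :=
  MvPolynomial.aeval (fun v : Σ j, Fin (m j + 1) => (H.x v.1 v.2 : K))
    (MvPolynomial.X v * MvPolynomial.pderiv v H.F)

/-- The partial derivative of the equation in the chart `s`. -/
noncomputable def Hypersurface.pd (v : Σ j, Fin (m j + 1)) : K :=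
  MvPolynomial.aeval (H.aff s) (MvPolynomial.pderiv v H.F)

theorem Hypersurface.ld_sum (j : J) : ∑ r, H.ld ⟨j, r⟩ = 0 := by
  unfold Hypersurface.ld
  rw [← map_sum, euler_group H.F d H.homog j, map_nsmul, H.vanish, smul_zero]

theorem Hypersurface.ld_eq (v : Σ j, Fin (m j + 1)) :
    H.ld v = (∏ j, (H.x j (s j) : K) ^ d j) * (H.aff s v * H.pd s v) := by
  unfold Hypersurface.ld Hypersurface.pd
  rw [H.aeval_multiHom s _ d (multiHom_X_pderiv H.F d H.homog v), map_mul, MvPolynomial.aeval_X]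

theorem Hypersurface.exists_ld_ne_zero (hd : ∀ j, 1 ≤ d j) : ∃ v, H.ld v ≠ 0 := by
  have hJ : Nonempty J := by
    by_contra hcon
    rw [not_nonempty_iff] at hcon
    have h1 : H.F = MvPolynomial.C (H.F.coeff 0) := MvPolynomial.eq_C_of_isEmpty H.F
    have h2 := H.vanish
    rw [h1, MvPolynomial.aeval_C, map_eq_zero_iff _ (algebraMap ℂ K).injective] at h2
    rw [h2, map_zero] at h1
    exact H.F_ne h1
  obtain ⟨j⟩ := hJ
  obtain ⟨v, hv⟩ := pderiv_ne_zero_of_multiHom H.F d H.homog H.F_ne j (hd j)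
  refine ⟨v, ?_⟩
  unfold Hypersurface.ld
  rw [map_mul, MvPolynomial.aeval_X]
  refine mul_ne_zero (Units.ne_zero _) fun h => ?_
  exact not_dvd_pderiv H.F v H.F_ne hv (H.minimal _ _ (multiHom_pderiv H.F d H.homog v) h)

theorem Hypersurface.exists_ld_ne_zero' (hd : ∀ j, 1 ≤ d j) :
    ∃ v : Σ j, Fin (m j + 1), v.2 ≠ s v.1 ∧ H.ld v ≠ 0 := by
  obtain ⟨⟨j, r⟩, hv⟩ := H.exists_ld_ne_zero hd
  by_contra hcon
  push Not at hcon
  have h1 := H.ld_sum j
  have h2 : r = s j := by
    by_contra h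
    exact hv (hcon ⟨j, r⟩ h)
  rw [Finset.sum_eq_single (s j)] at h1
  · subst h2; exact hv h1
  · intro r' _ hr'
    exact hcon ⟨j, r'⟩ hr'
  · intro h; exact absurd (Finset.mem_univ _) h

theorem Hypersurface.rel_D :
    ∑ v, H.pd s v • KaehlerDifferential.D ℂ K (H.aff s v) = 0 := by
  have h := derivation_aeval (KaehlerDifferential.D ℂ K) (H.aff s) H.F
  rw [H.aeval_aff_F, map_zero] at h
  exact h.symm

/-- The logarithmic differentials of the affine coordinates. -/
noncomputable def Hypersurface.dl (v : Σ j, Fin (m j + 1)) : Ω[K⁄ℂ] :=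
  (H.aff s v)⁻¹ • KaehlerDifferential.D ℂ K (H.aff s v)

theorem Hypersurface.rel_dl : ∑ v, H.ld v • H.dl s v = 0 := by
  have h : ∀ v, H.ld v • H.dl s v =
      (∏ j, (H.x j (s j) : K) ^ d j) • (H.pd s v • KaehlerDifferential.D ℂ K (H.aff s v)) := by
    intro v
    rw [H.ld_eq s, Hypersurface.dl, smul_smul, smul_smul]
    congr 1
    have := H.aff_ne_zero s v
    field_simp
  rw [Finset.sum_congr rfl fun v _ => h v, ← Finset.smul_sum, H.rel_D, smul_zero]

theorem Hypersurface.dl_self (j : J) : H.dl s ⟨j, s j⟩ = 0 := by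
  rw [Hypersurface.dl, H.aff_self]
  simp

theorem Hypersurface.dl_eq (v : Σ j, Fin (m j + 1)) :
    H.dl s v = (H.x v.1 v.2 : K)⁻¹ • KaehlerDifferential.D ℂ K (H.x v.1 v.2 : K) -
      (H.x v.1 (s v.1) : K)⁻¹ • KaehlerDifferential.D ℂ K (H.x v.1 (s v.1) : K) := by
  unfold Hypersurface.dl
  have hx : (H.x v.1 v.2 : K) ≠ 0 := Units.ne_zero _
  have hy : (H.x v.1 (s v.1) : K) ≠ 0 := Units.ne_zero _
  have h1 : (H.x v.1 v.2 : K) = H.aff s v * H.x v.1 (s v.1) := by
    unfold Hypersurface.aff; rw [div_mul_cancel₀ _ hy]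
  have h2 : KaehlerDifferential.D ℂ K (H.x v.1 v.2 : K) =
      H.aff s v • KaehlerDifferential.D ℂ K (H.x v.1 (s v.1) : K) +
      (H.x v.1 (s v.1) : K) • KaehlerDifferential.D ℂ K (H.aff s v) := by
    rw [h1, Derivation.leibniz]
  have ha := H.aff_ne_zero s v
  rw [h2, smul_add, smul_smul, smul_smul]
  have e1 : (H.x v.1 v.2 : K)⁻¹ * H.aff s v = (H.x v.1 (s v.1) : K)⁻¹ := by
    rw [h1]; field_simp
  have e2 : (H.x v.1 v.2 : K)⁻¹ * (H.x v.1 (s v.1) : K) = (H.aff s v)⁻¹ := by
    rw [h1]; field_simp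
  rw [e1, e2]
  abel

end Pool.Agent.LibGMM
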