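import Mathlib

/-!
Birational geometry of normal projective varieties over the complex numbers, inside a fixed
function field.

`K` is a field extension of `ℂ` (the field of rational functions). A normal projective variety with
function field `K` is given by homogeneous coordinates `g i` (a `NormalModel`): it is the closure of
the image of the rational map `(g i)`, covered by the affine charts `Spec ℂ[g j / g i]`. A birational
map between two varieties is an identification of the function fields, so two `NormalModel`s of the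
same `K` are two varieties together with a birational map between them. Prime divisors are discrete
valuations of `K`.
-/

open scoped KaehlerDifferential

namespace Pool.Agent.LibGMM

/-- A normalised discrete valuation of the field `K` which is trivial on `ℂ` (`ord 0 = 0`). -/
structure DVal (K : Type) [Field K] [Algebra ℂ K] where
  ord : K → ℤ
  ord_zero : ord 0 = 0
  ord_mul : ∀ a b, a ≠ 0 → b ≠ 0 → ord (a * b) = ord a + ord b
  ord_add : ∀ a b, a ≠ 0 → b ≠ 0 → a + b ≠ 0 → min (ord a) (ord b) ≤ ord (a + b)
  ord_const : ∀ c : ℂ, ord (algebraMap ℂ K c) = 0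
  exists_ord_one : ∃ t, ord t = 1

section

variable {K : Type} [Field K] [Algebra ℂ K]

/-- The ring of a discrete valuation. -/
def DVal.ring (O : DVal K) : Subalgebra ℂ K where
  carrier := {x | 0 ≤ O.ord x}
  mul_mem' := by
    intro a b ha hb
    simp only [Set.mem_setOf_eq] at *
    by_cases h0 : a = 0
    · simp [h0, O.ord_zero]
    by_cases h1 : b = 0
    · simp [h1, O.ord_zero]
    rw [O.ord_mul a b h0 h1]; omega
  add_mem' := by
    intro a b ha hb
    simp only [Set.mem_setOf_eq] at *
    by_cases h0 : a = 0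
    · simpa [h0] using hb
    by_cases h1 : b = 0
    · simpa [h1] using ha
    by_cases h2 : a + b = 0
    · simp [h2, O.ord_zero]
    exact le_trans (le_min ha hb) (O.ord_add a b h0 h1 h2)
  algebraMap_mem' := by
    intro c
    simp [O.ord_const]

/-- `O` is divisorial: its ring is the local ring `{a / b | a, b ∈ A, ord b = 0}` of an affine
variety `Spec A` (`A` a finitely generated `ℂ`-algebra with function field `K`). These are the prime
divisors on the varieties with function field `K`, i.e. the prime divisors over `X`, for any model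
`X` of `K`. -/
def DVal.Divisorial (O : DVal K) : Prop :=
  ∃ A : Subalgebra ℂ K, A.FG ∧ (∀ a ∈ A, 0 ≤ O.ord a) ∧
    ∀ x, 0 ≤ O.ord x → ∃ a ∈ A, ∃ b ∈ A, b ≠ 0 ∧ O.ord b = 0 ∧ x = a / b

/-- The coordinate ring `ℂ[g j / g i]` of the `i`-th affine chart of the closure of the image of the
rational map with homogeneous coordinates `g`. -/
def chart {ι : Type} (g : ι → Kˣ) (i : ι) : Subalgebra ℂ K :=
  Algebra.adjoin ℂ (Set.range fun j => (g j : K) / g i)

end

/-- A normal projective variety over `ℂ` with function field `K`, embedded in projective space by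
homogeneous coordinates `g`: `K` is the field of fractions of the charts, which are integrally
closed. -/
structure NormalModel (K : Type) [Field K] [Algebra ℂ K] where
  ι : Type
  fin : Finite ι
  ne : Nonempty ι
  g : ι → Kˣ
  frac : ∀ i (x : K), ∃ a ∈ chart g i, ∃ b ∈ chart g i, b ≠ 0 ∧ x = a / b
  normal : ∀ i (x : K), IsIntegral (chart g i) x → x ∈ chart g i

section

variable {K : Type} [Field K] [Algebra ℂ K]

/-- A (scheme theoretic) point of `X`: a prime ideal of the coordinate ring of a chart. -/
structure NormalModel.Pt (X : NormalModel K) where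
  i : X.ι
  P : Ideal (chart X.g i)
  prime : P.IsPrime

/-- The local ring of `X` at the point `p`, as a subset of the function field. -/
def NormalModel.loc (X : NormalModel K) (p : X.Pt) : Set K :=
  {x | ∃ a b : chart X.g p.i, b ∉ p.P ∧ x = (a : K) / b}

/-- `p` is the centre of the discrete valuation `O` on `X`. -/
def NormalModel.IsCentre (X : NormalModel K) (O : DVal K) (p : X.Pt) : Prop :=
  ∀ a : chart X.g p.i, 0 ≤ O.ord a ∧ (a ∈ p.P ↔ (a = 0 ∨ 0 < O.ord a))

/-- `Q` is a prime divisor of `X`: the ring of `Q` is the local ring of `X` at a point (the generic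
point of the prime divisor). -/
def NormalModel.IsPrimeDiv (X : NormalModel K) (Q : DVal K) : Prop :=
  ∃ p : X.Pt, X.IsCentre Q p ∧ ∀ x, 0 ≤ Q.ord x → x ∈ X.loc p

/-- The prime divisor `Q` passes through the point `p`. -/
def NormalModel.Through (X : NormalModel K) (Q : DVal K) (p : X.Pt) : Prop :=
  ∀ x ∈ X.loc p, 0 ≤ Q.ord x

/-- The order of vanishing along `O` of an element `f = ∑ r_u ⊗ u` of `ℝ ⊗ Kˣ` (a real
combination of rational functions). -/
noncomputable def ordR (O : DVal K) (f : Kˣ →₀ ℝ) : ℝ :=
  f.sum fun u r => r * (O.ord u : ℝ)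

/-- The `ℝ`-divisor `D` on `X` (a function on prime divisors; only its values at the prime divisors
of `X` matter) is equal to the `ℝ`-divisor of `f` in a neighbourhood of the point `p`. -/
def NormalModel.LocEq (X : NormalModel K) (D : DVal K → ℝ) (p : X.Pt) (f : Kˣ →₀ ℝ) : Prop :=
  ∀ Q, X.IsPrimeDiv Q → X.Through Q p → D Q = ordR Q f

/-- `D` is `ℝ`-Cartier. -/
def NormalModel.RCartier (X : NormalModel K) (D : DVal K → ℝ) : Prop :=
  ∀ p : X.Pt, ∃ f, X.LocEq D p f

/-- `D` and `E` are `ℝ`-linearly equivalent. -/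
def NormalModel.RLinEq (X : NormalModel K) (D E : DVal K → ℝ) : Prop :=
  ∃ f, ∀ Q, X.IsPrimeDiv Q → D Q = E Q + ordR Q f

/-- `D` is `ℝ`-linearly equivalent to an effective `ℝ`-divisor. -/
def NormalModel.REffective (X : NormalModel K) (D : DVal K → ℝ) : Prop :=
  ∃ f, ∀ Q, X.IsPrimeDiv Q → 0 ≤ D Q + ordR Q f

/-- The coefficient at `Q` of the smallest divisor `D` such that all `h ∈ G` are sections of `𝒪(D)`,
i.e. `D + div h ≥ 0`: it is `- min ord_Q h`. -/
noncomputable def sys (Q : DVal K) (G : Finset Kˣ) : ℝ :=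
  - ⨅ h : {h // h ∈ G}, (Q.ord (h : Kˣ) : ℝ)

/-- The linear system spanned by the sections `h ∈ G` of the divisor `sys · G` has no base points on
`X`: near every point one of the sections generates. -/
def NormalModel.BPF (X : NormalModel K) (G : Finset Kˣ) : Prop :=
  ∀ p : X.Pt, ∃ h ∈ G, ∀ h' ∈ G, ((h' : K) / h) ∈ X.loc p

/-- `D` is semiample: it is `ℝ`-linearly equivalent to a combination of base point free Cartier
divisors with coefficients `≥ 0`. -/
def NormalModel.Semiample (X : NormalModel K) (D : DVal K → ℝ) : Prop :=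
  ∃ (N : ℕ) (c : Fin N → ℝ) (G : Fin N → Finset Kˣ), (∀ k, 0 ≤ c k) ∧ (∀ k, X.BPF (G k)) ∧
    X.RLinEq D fun Q => ∑ k, c k * sys Q (G k)

/-- The hyperplane class of `X` in the given embedding. -/
noncomputable def NormalModel.hyperplane (X : NormalModel K) (Q : DVal K) : ℝ :=
  - ⨅ i : X.ι, (Q.ord (X.g i) : ℝ)

/-- `D` is big: it is `ℝ`-linearly equivalent to the sum of a positive multiple of the hyperplane
class and an effective `ℝ`-divisor. -/
def NormalModel.Big (X : NormalModel K) (D : DVal K → ℝ) : Prop :=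
  ∃ ε : ℝ, 0 < ε ∧ X.REffective fun Q => D Q - ε * X.hyperplane Q

variable (K) in
/-- The dimension `n` of the varieties with function field `K`. -/
noncomputable def dimK : ℕ := Module.finrank K (Ω[K⁄ℂ])

variable (K) in
/-- Rational differential forms of top degree `n`: alternating forms on the `K`-vector space of the
derivations of `K` over `ℂ` (rational vector fields). -/
abbrev TopForm : Type := Derivation ℂ K K [⋀^Fin (dimK K)]→ₗ[K] K

/-- The order of the top form `ω` along `O`: the largest order of `g` in a presentation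
`ω = g dx₁ ∧ ... ∧ dxₙ` with `x₁, ..., xₙ` in the ring of `O`, where `dx₁ ∧ ... ∧ dxₙ` is the form
`(D₁, ..., Dₙ) ↦ det (Dᵢ xⱼ)`. -/
noncomputable def canOrd (O : DVal K) (ω : TopForm K) : ℤ :=
  sSup {k | ∃ (g : K) (x : Fin (dimK K) → K), g ≠ 0 ∧ O.ord g = k ∧ (∀ i, 0 ≤ O.ord (x i)) ∧
    ∀ D : Fin (dimK K) → Derivation ℂ K K, ω D = g * Matrix.det fun i j => D i (x j)}

/-- The `ℝ`-divisor `K_X + Δ`, where `K_X` is the divisor of the top form `ω`. -/
noncomputable def lcDiv (ω : TopForm K) (Δ : DVal K → ℝ) : DVal K → ℝ :=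
  fun Q => (canOrd Q ω : ℝ) + Δ Q

/-- `(X, Δ)` is a klt pair: `Δ` is an effective `ℝ`-divisor, `K_X + Δ` is `ℝ`-Cartier and all
discrepancies `a(O, X, Δ) = ord_O ω - ord_O (K_X + Δ)` of prime divisors `O` over `X` are `> -1`. -/
structure IsKlt (X : NormalModel K) (ω : TopForm K) (Δ : DVal K → ℝ) : Prop where
  nonneg : ∀ Q, X.IsPrimeDiv Q → 0 ≤ Δ Q
  finite : {Q | X.IsPrimeDiv Q ∧ Δ Q ≠ 0}.Finite
  cartier : X.RCartier (lcDiv ω Δ)
  klt : ∀ (O : DVal K) (p : X.Pt) (f : Kˣ →₀ ℝ), O.Divisorial → X.IsCentre O p →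
    X.LocEq (lcDiv ω Δ) p f → -1 < (canOrd O ω : ℝ) - ordR O f

/-- `W` is a good minimal model of the pair `(X, Δ)`: the birational map `X ⇢ W` is a birational
contraction (prime divisors of `W` are prime divisors of `X`), `(W, Δ_W)` is klt, where `Δ_W` is the
push-forward of `Δ` (same coefficients), `K_W + Δ_W` is semiample (hence nef), and
`a(Q, X, Δ) < a(Q, W, Δ_W)` for all contracted prime divisors `Q` of `X`. -/
structure IsGoodMinimalModel (X : NormalModel K) (ω : TopForm K) (Δ : DVal K → ℝ)
    (W : NormalModel K) : Prop where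
  contraction : ∀ Q, W.IsPrimeDiv Q → X.IsPrimeDiv Q
  klt : IsKlt W ω Δ
  semiample : W.Semiample (lcDiv ω Δ)
  negative : ∀ (Q : DVal K) (p : W.Pt) (f : Kˣ →₀ ℝ), X.IsPrimeDiv Q → ¬ W.IsPrimeDiv Q →
    W.IsCentre Q p → W.LocEq (lcDiv ω Δ) p f → - Δ Q < (canOrd Q ω : ℝ) - ordR Q f

end

end Pool.Agent.LibGMM
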