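import Pool.Agent.LibGMM.G3
import Pool.Agent.LibGMM.G4
import Pool.Agent.LibGMM.G5
import Pool.Agent.LibGMM.G6

/-! TASK G7 (uses G3, G4, G6). -/

namespace Pool.Agent.LibGMM

variable {K : Type} [Field K] [Algebra ℂ K]

/-- The product of integral powers of the units in the support of `f`. -/
private theorem ord_prod_zpow (O : DVal K) {κ : Type} [Fintype κ] (v : κ → Kˣ) (y : κ → ℤ) :
    O.ord ((∏ k, v k ^ y k : Kˣ) : K) = ∑ k, O.ord (v k) * y k := by
  rw [Units.coe_prod, O.ord_prod _ _ (fun i _ => Units.ne_zero _)]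
  refine Finset.sum_congr rfl fun k _ => ?_
  rw [Units.val_zpow_eq_zpow_val, O.ord_zpow]; ring

private theorem ordR_eq_sum (O : DVal K) (f : Kˣ →₀ ℝ) :
    ordR O f = ∑ k : f.support, (O.ord ((k : Kˣ) : K) : ℝ) * f k := by
  unfold ordR Finsupp.sum
  rw [← Finset.sum_coe_sort f.support (fun a => f a * (O.ord (a : K) : ℝ))]
  exact Finset.sum_congr rfl fun k _ => mul_comm _ _

/-- An `ℝ`-Cartier divisor which is effective near `p` has nonnegative order along all valuations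
centred at `p`. -/
theorem NormalModel.ordR_nonneg (X : NormalModel K) (p : X.Pt) (f : Kˣ →₀ ℝ)
    (hf : ∀ Q, X.IsPrimeDiv Q → X.Through Q p → 0 ≤ ordR Q f) (O : DVal K)
    (hO : X.IsCentre O p) : 0 ≤ ordR O f := by
  classical
  let I : Type := {Q : DVal K // X.IsPrimeDiv Q ∧ X.Through Q p}
  let M : I → f.support → ℤ := fun Q k => Q.1.ord ((k : Kˣ) : K)
  have hM : (Set.range M).Finite := by
    have hfin : (⋃ k : f.support, {Q | X.IsPrimeDiv Q ∧ Q.ord ((k : Kˣ) : K) ≠ 0}).Finite :=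
      Set.finite_iUnion fun k => X.finite_ord_ne k
    refine Set.Finite.subset ((hfin.image fun (Q : DVal K) (k : f.support) =>
      Q.ord ((k : Kˣ) : K)).union (Set.finite_singleton 0)) ?_
    rintro _ ⟨Q, rfl⟩
    by_cases h : M Q = 0
    · right; exact h
    · left
      obtain ⟨k, hk⟩ := Function.ne_iff.1 h
      exact ⟨Q.1, Set.mem_iUnion.2 ⟨k, Q.2.1, hk⟩, rfl⟩
  have hx : ∀ Q : I, 0 ≤ ∑ k : f.support, (M Q k : ℝ) * f k := by
    intro Q
    have := hf Q.1 Q.2.1 Q.2.2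
    rwa [ordR_eq_sum] at this
  obtain ⟨N, c, y, hc, hy, hxy⟩ := rational_decomp M hM (fun k : f.support => f k) hx
  have hv : ∀ n, 0 ≤ O.ord ((∏ k : f.support, (k : Kˣ) ^ y n k : Kˣ) : K) := by
    intro n
    apply X.loc_le_of_isCentre O p hO
    apply X.mem_loc
    intro Q hQ hQp
    rw [ord_prod_zpow]
    exact hy n ⟨Q, hQ, hQp⟩
  rw [ordR_eq_sum]
  have h1 : ∑ k : f.support, (O.ord ((k : Kˣ) : K) : ℝ) * f k =
      ∑ n, c n * (O.ord ((∏ k : f.support, (k : Kˣ) ^ y n k : Kˣ) : K) : ℝ) := by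
    simp_rw [ord_prod_zpow]
    push_cast
    simp_rw [Finset.mul_sum]
    rw [Finset.sum_comm]
    refine Finset.sum_congr rfl fun k _ => ?_
    have h2 := hxy k
    rw [h2, Finset.mul_sum]
    exact Finset.sum_congr rfl fun n _ => by ring
  rw [h1]
  exact Finset.sum_nonneg fun n _ => mul_nonneg (hc n).le (by exact_mod_cast hv n)

theorem NormalModel.ordR_unique (X : NormalModel K) (p : X.Pt) (D : DVal K → ℝ) (f f' : Kˣ →₀ ℝ)
    (hf : X.LocEq D p f) (hf' : X.LocEq D p f') (O : DVal K) (hO : X.IsCentre O p) :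
    ordR O f = ordR O f' := by
  have h1 := X.ordR_nonneg p (f - f') (fun Q hQ hQp => by
    rw [ordR_sub, ← hf Q hQ hQp, ← hf' Q hQ hQp, sub_self]) O hO
  have h2 := X.ordR_nonneg p (f' - f) (fun Q hQ hQp => by
    rw [ordR_sub, ← hf Q hQ hQp, ← hf' Q hQ hQp, sub_self]) O hO
  rw [ordR_sub] at h1 h2
  linarith

end Pool.Agent.LibGMM
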